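import Pool.Agent.MP_66cee2_co.S4.Spec

/-
Row Chart: a cap of the slice, thick along the sphere.
-/

namespace Pool.Agent.MP_66cee2_co.S4

open Set Metric Module Pool.Agent.MP_66cee2_co.X Pool.Agent.MP_66cee2_co.D
open Pool.Agent.MP_66cee2_co.TR Pool.Agent.MP_66cee2_co.Q
open Filter Topology
open scoped RealInnerProductSpace

namespace Chart2x

theorem drop {d : ℕ} (N : Submodule ℝ (E d)) (v : E d) (v1 : ‖v‖ = 1) :
    finrank ℝ N ≤ finrank ℝ (N ⊓ (ℝ ∙ v)ᗮ : Submodule ℝ (E d)) + 1 := by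
  have e0 : v ≠ 0 := by
    rintro rfl
    simp at v1
  have f1 := Submodule.finrank_add_finrank_orthogonal (ℝ ∙ v)
  have f2 := Submodule.finrank_sup_add_finrank_inf_eq N (ℝ ∙ v)ᗮ
  have f3 := Submodule.finrank_le (N ⊔ (ℝ ∙ v)ᗮ)
  rw [finrank_span_singleton e0] at f1
  omega

theorem pyth {d : ℕ} {ν e x : E d} (ν1 : ‖ν‖ = 1) (e1 : ‖e‖ = 1) (eν : ⟪e, ν⟫ = 0)
    (xν : ⟪x, ν⟫ = 0) (xe : ⟪x, e⟫ = 0) (a b : ℝ) :
    ‖a • ν + (x + b • e)‖ ^ 2 = a ^ 2 + ‖x‖ ^ 2 + b ^ 2 := by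
  have h1 : ⟪a • ν, x + b • e⟫ = 0 := by
    rw [real_inner_comm, inner_smul_right, inner_add_left, real_inner_smul_left, xν, eν]
    ring
  have h2 : ⟪x, b • e⟫ = 0 := by
    rw [inner_smul_right, xe, mul_zero]
  rw [norm_add_sq_real, norm_add_sq_real, h1, h2, norm_smul, norm_smul, ν1, e1,
    Real.norm_eq_abs, Real.norm_eq_abs, mul_one, mul_one, sq_abs, sq_abs]
  ring

end Chart2x

open Chart2x in
theorem sChart2 : SChart := by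
  intro d o M ρ ν e t η U ρ0 s η0 hU hS
  obtain ⟨F, hF⟩ : ∃ F : Submodule ℝ (E d), F = (M ⊓ (ℝ ∙ ν)ᗮ) ⊓ (ℝ ∙ e)ᗮ := ⟨_, rfl⟩
  have FM : ∀ x : F, (x : E d) ∈ M ∧ ⟪(x : E d), ν⟫ = 0 ∧ ⟪(x : E d), e⟫ = 0 := fun x => by
    have h : (x : E d) ∈ (M ⊓ (ℝ ∙ ν)ᗮ) ⊓ (ℝ ∙ e)ᗮ := hF ▸ x.2
    exact ⟨h.1.1, Submodule.mem_orthogonal_singleton_iff_inner_left.1 h.1.2,
      Submodule.mem_orthogonal_singleton_iff_inner_left.1 h.2⟩
  have Fd : finrank ℝ M ≤ finrank ℝ F + 2 := by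
    have f1 := drop M ν s.ν1
    have f2 := drop (M ⊓ (ℝ ∙ ν)ᗮ) e s.e1
    rw [hF]
    omega
  have νν : ⟪ν, ν⟫ = 1 := by
    rw [real_inner_self_eq_norm_sq, s.ν1]
    norm_num
  have ee : ⟪e, e⟫ = 1 := by
    rw [real_inner_self_eq_norm_sq, s.e1]
    norm_num
  have νe : ⟪ν, e⟫ = 0 := by
    rw [real_inner_comm]
    exact s.eν
  obtain ⟨Q, Q1, Q2⟩ := exists_between s.big
  obtain ⟨R, R0, R2⟩ : ∃ R : ℝ, 0 < R ∧ R ^ 2 = Q :=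
    ⟨√Q, Real.sqrt_pos.2 (by linarith), Real.sq_sqrt (by linarith)⟩
  let ψ : ℝ → F → E d := fun x p =>
    o + ((t + x) • ν + (((R • p : F) : E d) + √(ρ ^ 2 - (t + x) ^ 2 - Q * ‖p‖ ^ 2) • e))
  have ψc : Continuous fun z : ℝ × F => ψ z.1 z.2 := by fun_prop
  have nR : ∀ p : F, ‖((R • p : F) : E d)‖ ^ 2 = Q * ‖p‖ ^ 2 := fun p => by
    rw [Submodule.coe_norm, Submodule.coe_smul, norm_smul, mul_pow, Real.norm_eq_abs, sq_abs, R2]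
  have Qp : ∀ p : F, ‖p‖ ≤ 1 → Q * ‖p‖ ^ 2 ≤ Q := fun p hp => by
    have : ‖p‖ ^ 2 ≤ 1 := by nlinarith [norm_nonneg p]
    nlinarith
  have ψν : ∀ x p, ⟪ψ x p - o, ν⟫ = t + x := fun x p => by
    simp only [ψ, add_sub_cancel_left, inner_add_left, real_inner_smul_left, νν, (FM _).2.1, s.eν]
    ring
  have ψe : ∀ x p, ⟪ψ x p - o, e⟫ = √(ρ ^ 2 - (t + x) ^ 2 - Q * ‖p‖ ^ 2) := fun x p => by
    simp only [ψ, add_sub_cancel_left, inner_add_left, real_inner_smul_left, νe, (FM _).2.2, ee]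
    ring
  have ev1 : ∀ᶠ x in 𝓝 (0 : ℝ), ∀ p ∈ closedBall (0 : F) 1, ψ x p ∈ U := by
    have := FiniteDimensional.proper_real F
    refine (isCompact_closedBall (0 : F) 1).eventually_forall_of_forall_eventually fun p hp => ?_
    have hp1 : ‖p‖ ≤ 1 := mem_closedBall_zero_iff.1 hp
    have pos : 0 < ρ ^ 2 - (t + 0) ^ 2 - Q * ‖p‖ ^ 2 := by
      have := Qp p hp1
      rw [add_zero]
      linarith
    have e0 : ψ 0 p - (o + t • ν) =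
        (0 : ℝ) • ν + (((R • p : F) : E d) + √(ρ ^ 2 - (t + 0) ^ 2 - Q * ‖p‖ ^ 2) • e) := by
      simp only [ψ, add_zero, zero_smul, zero_add]
      abel
    refine ψc.continuousAt.eventually_mem (hU.mem_nhds (hS _ ⟨⟨?_, ?_⟩, ?_⟩ ?_))
    · show ψ 0 p - (o + t • ν) ∈ M
      rw [e0]
      exact M.add_mem (M.smul_mem _ s.νM) (M.add_mem (FM _).1 (M.smul_mem _ s.eM))
    · refine Submodule.mem_orthogonal_singleton_iff_inner_left.2 ?_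
      show ⟪ψ 0 p - (o + t • ν), ν⟫ = 0
      rw [← sub_sub, inner_sub_left, ψν, real_inner_smul_left, νν]
      ring
    · show ‖ψ 0 p - (o + t • ν)‖ = √(ρ ^ 2 - t ^ 2)
      refine (Real.sqrt_eq_iff_eq_sq ?_ (norm_nonneg _)).2 ?_ |>.symm
      · linarith [s.big]
      · rw [e0, pyth s.ν1 s.e1 s.eν (FM _).2.1 (FM _).2.2, nR, Real.sq_sqrt pos.le]
        ring
    · show 0 < ⟪ψ 0 p - o, e⟫
      rw [ψe]
      exact Real.sqrt_pos.2 pos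
  have ev2 : ∀ᶠ x in 𝓝 (0 : ℝ), Q < ρ ^ 2 - (t + x) ^ 2 := by
    have c : Continuous fun x : ℝ => ρ ^ 2 - (t + x) ^ 2 := by fun_prop
    exact continuousAt_const.eventually_lt c.continuousAt (by rwa [add_zero])
  obtain ⟨δ, δ0, hδ⟩ := Metric.eventually_nhds_iff.1 (ev1.and ev2)
  obtain ⟨τ, τ0, τ1, τ2⟩ : ∃ τ : ℝ, 0 < τ ∧ τ ≤ η ∧ τ < δ :=
    ⟨min η (δ / 2), lt_min η0 (by linarith), min_le_left _ _,
      (min_le_right _ _).trans_lt (by linarith)⟩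
  have rng : ∀ p ∈ Cyl F, 0 ≤ τ * p.2 ∧ τ * p.2 ≤ τ := fun p hp =>
    ⟨mul_nonneg τ0.le hp.2.1, mul_le_of_le_one_right τ0.le hp.2.2⟩
  have near : ∀ p ∈ Cyl F, dist (τ * p.2) 0 < δ := fun p hp => by
    rw [Real.dist_eq, sub_zero, abs_of_nonneg (rng p hp).1]
    linarith [(rng p hp).2]
  refine ⟨F, fun p => ψ (τ * p.2) p.1, Fd,
    ψc.comp (f := fun p : F × ℝ => (τ * p.2, p.1)) (by fun_prop),
    fun p hp => ⟨⟨?_, ?_⟩, (hδ (near p hp)).1 p.1 (mem_closedBall_zero_iff.2 hp.1), ?_⟩,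
    fun p hp q hq np nq h3 => ?_, fun p hp q hq p0 q1 h => ?_⟩
  · simp only [ψ, add_sub_cancel_left]
    exact M.add_mem (M.smul_mem _ s.νM) (M.add_mem (FM _).1 (M.smul_mem _ s.eM))
  · have pos : 0 ≤ ρ ^ 2 - (t + τ * p.2) ^ 2 - Q * ‖p.1‖ ^ 2 := by
      linarith [Qp p.1 hp.1, (hδ (near p hp)).2]
    refine (sq_eq_sq₀ (norm_nonneg _) ρ0.le).1 ?_
    simp only [ψ, add_sub_cancel_left]
    rw [pyth s.ν1 s.e1 s.eν (FM _).2.1 (FM _).2.2, nR, Real.sq_sqrt pos]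
    ring
  · rw [ψν]
    exact ⟨by linarith [(rng p hp).1], by linarith [(rng p hp).2]⟩
  · obtain ⟨a, b, hab⟩ : ∃ a b : ℝ, ψ (τ * p.2) p.1 - ψ (τ * q.2) q.1 =
        a • ν + (((R • (p.1 - q.1) : F) : E d) + b • e) :=
      ⟨(t + τ * p.2) - (t + τ * q.2), √(ρ ^ 2 - (t + τ * p.2) ^ 2 - Q * ‖p.1‖ ^ 2) -
        √(ρ ^ 2 - (t + τ * q.2) ^ 2 - Q * ‖q.1‖ ^ 2), by
          simp only [ψ, sub_smul, smul_sub, Submodule.coe_sub]
          abel⟩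
    have h4 : ‖ψ (τ * p.2) p.1 - ψ (τ * q.2) q.1‖ ^ 2 ≤ 1 := by
      have h5 : ‖ψ (τ * p.2) p.1 - ψ (τ * q.2) q.1‖ ≤ 1 := h3
      nlinarith [norm_nonneg (ψ (τ * p.2) p.1 - ψ (τ * q.2) q.1)]
    rw [hab, pyth s.ν1 s.e1 s.eν (FM _).2.1 (FM _).2.2, nR, norm_sub_sq_real, np, nq] at h4
    by_contra hn
    push Not at hn
    nlinarith [sq_nonneg a, sq_nonneg b]
  · have b1 := ψν (τ * p.2) p.1
    have b2 := ψν (τ * q.2) q.1
    have h' : ψ (τ * p.2) p.1 = ψ (τ * q.2) q.1 := h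
    rw [h', b2, p0, q1] at b1
    linarith

end Pool.Agent.MP_66cee2_co.S4
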