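import Pool.Agent.MP_66cee2_co.S4.Spec

namespace Pool.Agent.MP_66cee2_co.S4

open Set Metric Module Pool.Agent.MP_66cee2_co.X Pool.Agent.MP_66cee2_co.D
open scoped RealInnerProductSpace

namespace DensR

theorem perpv {d : ℕ} (M : Submodule ℝ (E d)) (v : E d) (h : 2 ≤ finrank ℝ M) :
    ∃ τ ∈ M, ⟪v, τ⟫ = 0 ∧ τ ≠ 0 := by
  have h1 : finrank ℝ (ℝ ∙ v) ≤ 1 := (finrank_span_le_card ({v} : Set (E d))).trans (by simp)
  have h2 := Submodule.finrank_add_finrank_orthogonal (ℝ ∙ v)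
  have h3 := Submodule.finrank_sup_add_finrank_inf_eq M (ℝ ∙ v)ᗮ
  have h4 := Submodule.finrank_le (M ⊔ (ℝ ∙ v)ᗮ)
  obtain ⟨τ, hτ, h0⟩ := Submodule.exists_mem_ne_zero_of_ne_bot (p := M ⊓ (ℝ ∙ v)ᗮ) fun h5 => by
    rw [h5, finrank_bot] at h3
    omega
  exact ⟨τ, hτ.1, Submodule.mem_orthogonal_singleton_iff_inner_right.1 hτ.2, h0⟩

theorem nsq {d : ℕ} {x y : E d} (h : ⟪x, y⟫ = 0) (a b : ℝ) :
    ‖a • x + b • y‖ ^ 2 = a ^ 2 * ‖x‖ ^ 2 + b ^ 2 * ‖y‖ ^ 2 := by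
  rw [norm_add_sq_real, real_inner_smul_left, real_inner_smul_right, h, norm_smul, norm_smul,
    mul_pow, mul_pow, Real.norm_eq_abs, Real.norm_eq_abs, sq_abs, sq_abs]
  ring

theorem one {d : ℕ} {U : Set (E d)} {o : E d} {M : Submodule ℝ (E d)} {ρ : ℝ}
    (hM : 2 ≤ finrank ℝ M) (ρ0 : 0 < ρ) (hU : IsOpen U) {y : E d} (hy : y ∈ Sph o M ρ)
    (hyU : y ∈ U) {u : E d} {c : ℝ} (h : ∃ y ∈ Sph o M ρ, ⟪y, u⟫ ≠ c) :
    ∃ z ∈ Sph o M ρ, z ∈ U ∧ ⟪z, u⟫ ≠ c := by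
  by_contra hn
  have hz : ∀ z ∈ Sph o M ρ, z ∈ U → ⟪z, u⟫ = c := fun z h1 h2 =>
    by_contra fun h3 => hn ⟨z, h1, h2, h3⟩
  obtain ⟨w, rfl⟩ : ∃ w, y = o + w := ⟨y - o, by abel⟩
  have h0 := hz _ hy hyU
  obtain ⟨wM, w1⟩ := hy
  rw [add_sub_cancel_left] at wM w1
  rw [inner_add_left] at h0
  have A : ∀ τ ∈ M, ⟪w, τ⟫ = 0 → τ ≠ 0 → ⟪τ, u⟫ = 0 ∧ ⟪w, u⟫ = 0 := fun τ τM wτ τ0 => by
    have n0 := norm_pos_iff.2 τ0
    obtain ⟨k, k0, hk⟩ : ∃ k : ℝ, 0 < k ∧ k * ‖τ‖ = ρ := ⟨ρ / ‖τ‖, by positivity, by field_simp⟩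
    let v : ℝ → E d := fun f => Real.cos f • w + (Real.sin f * k) • τ
    have hc : Continuous fun f => o + v f := by fun_prop
    obtain ⟨ε, ε0, hε⟩ := Metric.isOpen_iff.1 (hU.preimage hc) 0 (by simpa [v] using hyU)
    have good : ∀ f, |f| < ε → ⟪o, u⟫ + (Real.cos f * ⟪w, u⟫ + Real.sin f * k * ⟪τ, u⟫) = c :=
      fun f hf => by
      have := hz (o + v f) ⟨?_, ?_⟩ (hε (by simpa using hf))
      · rwa [inner_add_left, inner_add_left, real_inner_smul_left, real_inner_smul_left] at this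
      · rw [add_sub_cancel_left]
        exact M.add_mem (M.smul_mem _ wM) (M.smul_mem _ τM)
      · rw [add_sub_cancel_left]
        refine (sq_eq_sq₀ (norm_nonneg _) ρ0.le).1 ?_
        rw [nsq wτ, w1]
        linear_combination ρ ^ 2 * Real.cos_sq_add_sin_sq f +
          Real.sin f ^ 2 * (k * ‖τ‖ + ρ) * hk
    obtain ⟨f, f0, f1, f2⟩ : ∃ f : ℝ, 0 < f ∧ f < ε ∧ f ≤ 1 :=
      ⟨min (ε / 2) 1, by positivity, (min_le_left _ _).trans_lt (by linarith), min_le_right _ _⟩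
    have c1 : Real.cos f ≠ 1 := fun h => f0.ne' ((Real.cos_eq_one_iff_of_lt_of_lt
      (by linarith [Real.pi_gt_three]) (by linarith [Real.pi_gt_three])).1 h)
    have s1 := Real.sin_pos_of_pos_of_le_one f0 f2
    have g1 := good f (by rwa [abs_of_pos f0])
    have g2 := good (-f) (by rwa [abs_neg, abs_of_pos f0])
    rw [Real.cos_neg, Real.sin_neg] at g2
    exact ⟨(mul_eq_zero.1 (show Real.sin f * k * ⟪τ, u⟫ = 0 by
        linear_combination (g1 - g2) / 2)).resolve_left (mul_pos s1 k0).ne',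
      (mul_eq_zero.1 (show (Real.cos f - 1) * ⟪w, u⟫ = 0 by
        linear_combination (g1 + g2) / 2 - h0)).resolve_left (sub_ne_zero.2 c1)⟩
  obtain ⟨τ, t1, t2, t3⟩ := perpv M w hM
  have wu := (A τ t1 t2 t3).2
  obtain ⟨y₀, ⟨m0, -⟩, h1⟩ := h
  obtain ⟨x, rfl⟩ : ∃ x, y₀ = o + x := ⟨y₀ - o, by abel⟩
  rw [add_sub_cancel_left] at m0
  have B : ⟪x - (⟪w, x⟫ / ρ ^ 2) • w, u⟫ = 0 := by
    by_cases h2 : x - (⟪w, x⟫ / ρ ^ 2) • w = 0
    · rw [h2, inner_zero_left]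
    · refine (A _ (M.sub_mem m0 (M.smul_mem _ wM)) ?_ h2).1
      rw [inner_sub_right, real_inner_smul_right, real_inner_self_eq_norm_sq, w1]
      field_simp
      ring
  rw [inner_sub_left, real_inner_smul_left, wu] at B
  rw [inner_add_left] at h1
  exact h1 (by linarith)

end DensR

theorem sDens : SDens := by
  classical
  rintro d B U o M ρ hM ρ0 ⟨H, h1, h2⟩ hU y hy hyU
  have key : ∀ K : Finset (E d × ℝ), K ⊆ H →
      ∃ z ∈ Sph o M ρ, z ∈ U ∧ ∀ h ∈ K, ⟪z, h.1⟫ ≠ h.2 := fun K => by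
    induction K using Finset.induction_on with
    | empty => exact fun _ => ⟨y, hy, hyU, by simp⟩
    | insert h K _ ih =>
      intro hK
      obtain ⟨z, z1, z2, z3⟩ := ih ((Finset.subset_insert h K).trans hK)
      have op : IsOpen (U ∩ ⋂ g ∈ K, {x : E d | ⟪x, g.1⟫ ≠ g.2}) :=
        hU.inter (isOpen_biInter_finset fun g _ => isOpen_ne_fun (by fun_prop) (by fun_prop))
      obtain ⟨x, x1, ⟨x2, x3⟩, x4⟩ := DensR.one hM ρ0 op z1 ⟨z2, mem_iInter₂.2 z3⟩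
        (h1 h (hK (Finset.mem_insert_self h K)))
      exact ⟨x, x1, x2, Finset.forall_mem_insert _ _ _ |>.2 ⟨x4, mem_iInter₂.1 x3⟩⟩
  obtain ⟨z, z1, z2, z3⟩ := key H subset_rfl
  exact ⟨z, z1, z2, h2 z z1 z3⟩

end Pool.Agent.MP_66cee2_co.S4
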