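import Pool.Agent.MP_66cee2_co.S4.Spec

/-
The rank of the slice, and a point of the slice.
-/

namespace Pool.Agent.MP_66cee2_co.S4

open Set Metric Module Pool.Agent.MP_66cee2_co.X Pool.Agent.MP_66cee2_co.D
open Pool.Agent.MP_66cee2_co.TR Pool.Agent.MP_66cee2_co.Q
open scoped RealInnerProductSpace

theorem sDim : SDim := by
  intro d o M ρ ν e t hρ h
  have n0 : ν ≠ 0 := fun z => by have := h.ν1; rw [z, norm_zero] at this; exact zero_ne_one this
  have big := h.big
  have r0 : 0 < √(ρ ^ 2 - t ^ 2) := Real.sqrt_pos.2 (by linarith)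
  have rs : √(ρ ^ 2 - t ^ 2) ^ 2 = ρ ^ 2 - t ^ 2 := Real.sq_sqrt (by linarith)
  set r := √(ρ ^ 2 - t ^ 2) with hr
  have νe : ⟪ν, e⟫ = 0 := by rw [real_inner_comm]; exact h.eν
  refine ⟨?_, o + t • ν + r • e, ⟨?_, ?_⟩, ?_, ?_, ?_⟩
  · have := Submodule.finrank_add_inf_finrank_orthogonal
      ((Submodule.span_singleton_le_iff_mem ν M).2 h.νM)
    rw [finrank_span_singleton n0, inf_comm] at this
    omega
  · rw [add_sub_cancel_left]
    exact Submodule.smul_mem _ _ ⟨h.eM, Submodule.mem_orthogonal_singleton_iff_inner_left.2 h.eν⟩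
  · rw [add_sub_cancel_left, norm_smul, h.e1, mul_one, Real.norm_of_nonneg r0.le]
  · rw [add_assoc, add_sub_cancel_left, inner_add_left, inner_smul_left, inner_smul_left, νe,
      real_inner_self_eq_norm_sq, h.e1]
    simpa using r0
  · rw [add_assoc, add_sub_cancel_left]
    exact M.add_mem (M.smul_mem _ h.νM) (M.smul_mem _ h.eM)
  · rw [add_assoc, add_sub_cancel_left, ← sq_eq_sq₀ (norm_nonneg _) hρ.le, norm_add_sq_real,
      inner_smul_left, inner_smul_right, νe, norm_smul, norm_smul, h.ν1, h.e1, mul_one, mul_one,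
      Real.norm_eq_abs, Real.norm_eq_abs, sq_abs, sq_abs, rs]
    simp

end Pool.Agent.MP_66cee2_co.S4
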