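import Pool.Agent.MP_66cee2_co.S4.Spec
import Pool.Agent.MP_66cee2_co.Q.Fold

/-
Row FoldC: the fold for a chart in the closure.
-/

namespace Pool.Agent.MP_66cee2_co.S4

open Set Metric Module Filter Topology Pool.Agent.MP_66cee2_co.X Pool.Agent.MP_66cee2_co.D
open Pool.Agent.MP_66cee2_co.TR Pool.Agent.MP_66cee2_co.Q
open scoped RealInnerProductSpace

theorem locC {d n : ℕ} {O : (Ix n → ℝ) → Set (E d)} (hO : Fam O) (B : Set (E d)) :
    ∃ L : E d → Submodule ℝ (Ix n → ℝ),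
      (∀ p, ∃ ε : ℝ, 0 < ε ∧ (∀ p' ∈ ball p ε, L p' ≤ L p) ∧
        ∀ v, ∀ y ∈ O v, y ∈ B → y ∈ ball p ε → v ∈ L p) ∧
      (∀ w, ∀ y ∈ O w, ∀ p, ‖y - p‖ = 1 → ∀ v ∈ L p, lz w v = 0) ∧
      ∀ (W : Submodule ℝ (Ix n → ℝ)), Lab O B W → ∀ p, L p ≤ W := by
  let Λ : E d → ℝ → Submodule ℝ (Ix n → ℝ) := fun p ε =>
    Submodule.span ℝ {v | ∃ y ∈ O v, y ∈ B ∧ y ∈ ball p ε}
  have mono : ∀ p p' ε ε', ball p ε ⊆ ball p' ε' → Λ p ε ≤ Λ p' ε' := fun p p' ε ε' h =>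
    Submodule.span_mono fun v ⟨y, hy, hB, hb⟩ => ⟨y, hy, hB, h hb⟩
  have ex : ∀ p, ∃ ε : ℝ, 0 < ε ∧ ∀ δ : ℝ, 0 < δ → Λ p ε ≤ Λ p δ := by
    intro p
    obtain ⟨ε, e0, em⟩ : ∃ ε ∈ Ioi (0 : ℝ), ∀ δ ∈ Ioi (0 : ℝ),
        finrank ℝ (Λ p ε) ≤ finrank ℝ (Λ p δ) :=
      ⟨Function.argminOn (fun ε => finrank ℝ (Λ p ε)) (Ioi 0) ⟨1, by simp⟩,
        Function.argminOn_mem _ _ _,
        fun x hx => Function.argminOn_le (fun ε => finrank ℝ (Λ p ε)) _ hx⟩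
    refine ⟨ε, e0, fun δ hδ => ?_⟩
    have e := Submodule.eq_of_le_of_finrank_le
      (mono p p (min ε δ) ε (ball_subset_ball (min_le_left _ _))) (em _ (lt_min e0 hδ))
    rw [← e]
    exact mono p p _ _ (ball_subset_ball (min_le_right _ _))
  choose ε e0 e1 using ex
  refine ⟨fun p => Λ p (ε p), fun p => ⟨ε p, e0 p, fun p' hp' => ?_, fun v y hy hB hb =>
    Submodule.subset_span ⟨y, hy, hB, hb⟩⟩, fun w y hy p hp v hv => ?_, fun W hL p => ?_⟩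
  · obtain ⟨δ, d0, d1⟩ := Metric.isOpen_iff.1 isOpen_ball p' hp'
    exact (e1 p' δ d0).trans (mono _ _ _ _ d1)
  · obtain ⟨δ, d0, d1⟩ := Metric.isOpen_iff.1 (hO.opn w) y hy
    have h : Λ p δ ≤ perp (Submodule.span ℝ {w}) := by
      refine Submodule.span_le.2 ?_
      rintro v ⟨z, hz, -, hb⟩ u hu
      obtain ⟨c, rfl⟩ := Submodule.mem_span_singleton.1 hu
      have h1 : z + (y - p) ∈ O w := d1 (by
        rw [mem_ball_iff_norm] at hb ⊢
        rwa [show z + (y - p) - y = z - p by abel])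
      have h2 := hO.orth w v _ z h1 hz (by rwa [add_sub_cancel_left])
      rw [lz_comm]
      exact (smul_dotProduct c w _).trans ((congrArg _ h2).trans (smul_zero c))
    rw [lz_comm]
    exact h (e1 p δ d0 hv) w (Submodule.mem_span_singleton_self w)
  · exact Submodule.span_le.2 fun v ⟨y, hy, hB, _⟩ => hL v y hy hB

open Foldx in
theorem sFoldC (h1 : SLeb) (h2 : SRel) : SFoldC := by
  intro d n c s O B W F φ T hO hB hL hS Fd φc φs hsh rim ends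
  obtain ⟨L, l1, l2, l3⟩ := locC hO B
  obtain ⟨R, hR⟩ : ∃ R : Submodule ℝ (Ix n → ℝ), R = W ⊓ perp W := ⟨_, rfl⟩
  let r : E d → ℕ := fun x => finrank ℝ (L x ⊔ R : Submodule ℝ (Ix n → ℝ)) - finrank ℝ R
  have lab : ∀ p ∈ closure B, ∀ δ : ℝ, 0 < δ →
      ∃ v, ∃ y ∈ O v, y ∈ B ∧ y ∈ ball p δ ∧ v ∈ L p := by
    intro p hp δ hδ
    obtain ⟨ε, e0, -, e2⟩ := l1 p
    obtain ⟨y, hy, hx⟩ := hO.dense.inter_open_nonempty (ball p (min ε δ) ∩ B)
      (isOpen_ball.inter hB)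
      (_root_.mem_closure_iff.1 hp _ isOpen_ball (mem_ball_self (lt_min e0 hδ)))
    obtain ⟨v, hv⟩ := mem_iUnion.1 hx
    exact ⟨v, y, hv, hy.2, ball_subset_ball (min_le_right _ _) hy.1,
      e2 v y hv hy.2 (ball_subset_ball (min_le_left _ _) hy.1)⟩
  have ge : ∀ x, finrank ℝ R ≤ finrank ℝ (L x ⊔ R : Submodule ℝ (Ix n → ℝ)) := fun x =>
    Submodule.finrank_mono le_sup_right
  have big : ∀ x ∈ closure B, 1 ≤ r x := fun x hx => by
    obtain ⟨v, y, hy, -, -, hv⟩ := lab x hx 1 one_pos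
    refine Nat.sub_pos_of_lt
      (Submodule.finrank_lt_finrank_of_lt (lt_of_le_of_ne le_sup_right fun e => ?_))
    have h0 : v ∈ R := e ▸ Submodule.mem_sup_left hv
    rw [hR] at h0
    exact (hO.pos v ⟨y, hy⟩).ne' (h0.2 v h0.1)
  have rc : ∀ j, IsClosed {x | j ≤ r x} := fun j => by
    rw [← isOpen_compl_iff, Metric.isOpen_iff]
    intro x hx
    obtain ⟨ε, e0, e1, -⟩ := l1 x
    exact ⟨ε, e0, fun y hy h => hx (le_trans h
      (Nat.sub_le_sub_right (Submodule.finrank_mono (sup_le_sup_right (e1 y hy) R)) _))⟩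
  have cst : ∀ (j : ℕ) (S : Set (E d)), IsPreconnected S → (∀ x ∈ S, r x = j) →
      ∀ a ∈ S, ∀ b ∈ S, L a ⊔ R = L b ⊔ R := by
    intro j S hS hj a ha b hb
    refine hS.induction₂' (fun x y => L x ⊔ R = L y ⊔ R) (fun x hx => ?_)
      (fun _ _ _ _ _ _ => Eq.trans) ha hb
    obtain ⟨ε, e0, e1, -⟩ := l1 x
    filter_upwards [mem_nhdsWithin_of_mem_nhds (ball_mem_nhds x e0), self_mem_nhdsWithin]
      with y hy hyS
    have a1 : _ - _ = j := hj x hx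
    have a2 : _ - _ = j := hj y hyS
    have a3 := ge x
    have a4 := ge y
    have := Submodule.eq_of_le_of_finrank_le (sup_le_sup_right (e1 y hy) R) (by omega)
    exact ⟨this.symm, this⟩
  have ivt : ∀ (j : ℕ) (S : Set (E d)), IsPreconnected S → (∀ x ∈ S, r x = j) →
      ∀ a ∈ S, ∀ b ∈ S, ∀ z ∈ S, Lab O (B ∩ Lune a b) (W ⊓ perp (L z)) := by
    intro j S hS hj a ha b hb z hz w y hy hl
    have hw := hL w y hy hl.1
    refine ⟨hw, fun v hv => ?_⟩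
    have c1 : Continuous fun p : E d => ‖y - p‖ := by fun_prop
    obtain ⟨p, hp, e⟩ := hS.intermediate_value hb ha c1.continuousOn ⟨hl.2.1.le, hl.2.2.le⟩
    have h3 : v ∈ L p ⊔ R := cst j S hS hj z hz p hp ▸ Submodule.mem_sup_left hv
    obtain ⟨v₁, k1, v₂, k2, rfl⟩ := Submodule.mem_sup.1 h3
    rw [hR] at k2
    have k3 := l2 w y hy p e v₁ k1
    rw [lz_comm] at k3 ⊢
    exact (add_dotProduct v₁ v₂ _).trans ((congrArg₂ _ k3 (k2.2 w hw)).trans (add_zero 0))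
  have dia : ∀ (j : ℕ) (S : Set (E d)), S ⊆ closure B → IsPreconnected S → (∀ x ∈ S, r x = j) →
      ∀ a ∈ S, ∀ b ∈ S, ‖a - b‖ ≤ 1 := by
    intro j S hSB hS hj a ha b hb
    by_contra hlt
    push Not at hlt
    obtain ⟨v, y, hy, hyB, hb', hv⟩ := lab b (hSB hb) (min 1 (‖a - b‖ - 1))
      (lt_min one_pos (by linarith))
    rw [mem_ball_iff_norm, lt_min_iff] at hb'
    have h1 : 1 < ‖y - a‖ := by
      have := norm_sub_le (y - b) (y - a)
      rw [show y - b - (y - a) = a - b by abel] at this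
      linarith [hb'.2]
    exact (hO.pos v ⟨y, hy⟩).ne'
      ((ivt j S hS hj a ha b hb b hb v y hy ⟨hyB, hb'.1, h1⟩).2 v hv)
  have mx : ∀ p ∈ Cyl F, max 1 (r (φ p)) = r (φ p) := fun p hp =>
    max_eq_right (big _ (hsh (φs p hp)))
  obtain ⟨S, S1, S2, S3, p, hp, q, hq, p0, q1⟩ := h1 F s (fun p => max 1 (r (φ p))) Fd
    (fun j => by
      simp only [le_max_iff]
      exact isClosed_const.union ((rc j).preimage φc)) (fun p => le_max_left _ _)
    (fun j S hS hc hj p hp q hq np nq =>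
      rim p (hS hp) q (hS hq) np nq (dia j (φ '' S) (by
          rintro _ ⟨x, hx, rfl⟩
          exact hsh (φs x (hS hx))) (hc.image φ φc.continuousOn)
        (by
          rintro _ ⟨x, hx, rfl⟩
          exact (mx x (hS hx)).symm.trans (hj x hx)) _ ⟨p, hp, rfl⟩ _ ⟨q, hq, rfl⟩))
  have S4 : ∀ p ∈ S, s + 1 ≤ r (φ p) := fun p hp => (mx p (S1 hp)) ▸ S3 p hp
  have hc : closure S ⊆ Cyl F := closure_minimal S1 (cyl_compact F).isClosed
  have k1 : IsCompact (φ '' closure S) :=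
    ((cyl_compact F).of_isClosed_subset isClosed_closure hc).image φc
  have k2 : ∀ x ∈ φ '' closure S, s + 1 ≤ r x := by
    rintro _ ⟨x, hx, rfl⟩
    exact closure_minimal S4 ((rc (s + 1)).preimage φc) hx
  have k3 : φ '' closure S ⊆ T := by
    rintro _ ⟨x, hx, rfl⟩
    exact φs x (hc hx)
  have mp : φ p ∈ φ '' closure S := ⟨p, subset_closure hp, rfl⟩
  have mq : φ q ∈ φ '' closure S := ⟨q, subset_closure hq, rfl⟩
  obtain ⟨a, ha, am⟩ : ∃ a ∈ φ '' closure S, ∀ x ∈ φ '' closure S, r a ≤ r x :=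
    ⟨Function.argminOn r _ ⟨_, mp⟩, Function.argminOn_mem _ _ _,
      fun x hx => Function.argminOn_le _ _ hx⟩
  obtain ⟨z, hz, za⟩ : ∃ z ∈ φ '' closure S, z ≠ a := by
    by_cases h : φ p = a
    · exact ⟨_, mq, fun e => ends p (S1 hp) q (S1 hq) p0 q1 (h.trans e.symm)⟩
    · exact ⟨_, mp, h⟩
  obtain ⟨K, K1, K2, aK, b, bK, ba⟩ := H31.bump _ {x | r a + 1 ≤ r x}ᶜ a z k1
    (S2.closure.image φ φc.continuousOn) ha hz za (rc _).isOpen_compl (by simp)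
  have Kj : ∀ x ∈ K, r x = r a := fun x hx => by
    have b1 := am x (K1 hx).1
    have b2 := (K1 hx).2
    simp only [mem_compl_iff, mem_ofPred_eq] at b2
    omega
  refine ⟨W ⊓ perp (L a), a, k3 ha, b, k3 (K1 bK).1, ba.symm,
    h2.1 n c (s + 1) W (L a) hS (l3 W hL a) ?_, fun v y hy hB' => hB'.2.elim
    (fun h => ivt _ K K2 Kj a aK b bK a aK v y hy ⟨hB'.1, h⟩)
    fun h => ivt _ K K2 Kj b bK a aK a aK v y hy ⟨hB'.1, h⟩⟩
  have b1 : s + 1 ≤ _ - _ := k2 a ha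
  have b2 := ge a
  rw [← hR]
  omega

end Pool.Agent.MP_66cee2_co.S4
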