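import Pool.Agent.MP_66cee2_co.S4.Spec

/-
Row Slice: the next sphere.
-/

namespace Pool.Agent.MP_66cee2_co.S4

open Set Metric Module Filter Topology Pool.Agent.MP_66cee2_co.X Pool.Agent.MP_66cee2_co.D
open Pool.Agent.MP_66cee2_co.TR
open scoped RealInnerProductSpace

namespace Slx

variable {d : ℕ} {M : Submodule ℝ (E d)}

theorem ip_proj {w : E d} (hw : w ∈ M) (x : E d) : ⟪w, M.starProjection x⟫ = ⟪w, x⟫ := by
  have h := Submodule.inner_right_of_mem_orthogonal hw (M.sub_starProjection_mem_orthogonal x)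
  rw [inner_sub_right] at h
  linarith

theorem f_eq {o y : E d} {ρ : ℝ} (hy : y ∈ Sph o M ρ) (a : E d) :
    ‖y - a‖ ^ 2 - 1 = al o ρ a - 2 * ⟪y - o, M.starProjection (a - o)⟫ := by
  rw [ip_proj hy.1, al, ← hy.2, ← sub_sub_sub_cancel_right y a o, norm_sub_sq_real]
  ring

theorem dir (h2 : 2 ≤ finrank ℝ M) {ν v : E d} (hν : ν ∈ M) (h1 : ‖ν‖ = 1) (hv : v ∈ M) :
    ∃ e ∈ M, ‖e‖ = 1 ∧ ⟪e, ν⟫ = 0 ∧ ∃ β r : ℝ, 0 ≤ r ∧ v = β • ν + r • e := by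
  have key : ∀ x ∈ M, x - ⟪x, ν⟫ • ν ≠ 0 → ∃ e ∈ M, ‖e‖ = 1 ∧ ⟪e, ν⟫ = 0 ∧
      ∃ β r : ℝ, 0 ≤ r ∧ x = β • ν + r • e := by
    intro x hx h0
    have hn := norm_ne_zero_iff.2 h0
    refine ⟨‖x - ⟪x, ν⟫ • ν‖⁻¹ • (x - ⟪x, ν⟫ • ν), M.smul_mem _ (M.sub_mem hx (M.smul_mem _ hν)),
      by rw [norm_smul, norm_inv, norm_norm, inv_mul_cancel₀ hn], ?_, ⟪x, ν⟫, ‖x - ⟪x, ν⟫ • ν‖,
      norm_nonneg _, ?_⟩
    · rw [inner_smul_left, inner_sub_left, inner_smul_left, real_inner_self_eq_norm_sq, h1]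
      simp
    · rw [smul_smul, mul_inv_cancel₀ hn, one_smul, add_sub_cancel]
  by_cases h0 : v - ⟪v, ν⟫ • ν = 0
  · obtain ⟨x, hx, hx0⟩ : ∃ x ∈ M, x - ⟪x, ν⟫ • ν ≠ 0 := by
      by_contra h
      push Not at h
      have h3 : M ≤ ℝ ∙ ν := fun x hx =>
        Submodule.mem_span_singleton.2 ⟨_, (sub_eq_zero.1 (h x hx)).symm⟩
      have h4 := Submodule.finrank_mono h3
      have h5 : ν ≠ 0 := fun e => by simp [e] at h1
      rw [finrank_span_singleton h5] at h4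
      omega
    obtain ⟨e, e1, e2, e3, -⟩ := key x hx hx0
    exact ⟨e, e1, e2, e3, ⟪v, ν⟫, 0, le_rfl, by rw [zero_smul, add_zero, ← sub_eq_zero, h0]⟩
  · exact key v hv h0

theorem lune {a b y : E d} {l : ℝ} (l0 : 0 < l) (l1 : l < 1)
    (h : (1 - l) * (‖y - a‖ ^ 2 - 1) + l * (‖y - b‖ ^ 2 - 1) = 0)
    (hn : ‖y - a‖ ^ 2 ≠ ‖y - b‖ ^ 2) : y ∈ Lune a b ∪ Lune b a := by
  have ha := norm_nonneg (y - a)
  have hb := norm_nonneg (y - b)
  rcases lt_or_gt_of_ne hn with k | k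
  · have k1 : ‖y - a‖ ^ 2 < 1 := by nlinarith
    have k2 : 1 < ‖y - b‖ ^ 2 := by nlinarith
    exact Or.inr ⟨by nlinarith, by nlinarith⟩
  · have k1 : ‖y - b‖ ^ 2 < 1 := by nlinarith
    have k2 : 1 < ‖y - a‖ ^ 2 := by nlinarith
    exact Or.inl ⟨by nlinarith, by nlinarith⟩

theorem choose_l {A A' c : ℝ} {v v' : E d} (H : Finset (E d × ℝ)) (α : E d × ℝ → ℝ)
    (u : E d × ℝ → E d) (h0 : 0 < A) (h1 : A ^ 2 < 4 * ‖v‖ ^ 2 * c)
    (ind : ∀ s r : ℝ, s * A + r * A' = 0 → s • v + r • v' = 0 → s = 0 ∧ r = 0) :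
    ∃ l : ℝ, 0 < l ∧ l < 1 ∧ 0 < (1 - l) * A + l * A' ∧
      ((1 - l) * A + l * A') ^ 2 < 4 * ‖(1 - l) • v + l • v'‖ ^ 2 * c ∧
      ∀ h ∈ H, ∀ k : ℝ, k ≠ 0 → α h = k * ((1 - l) * A + l * A') →
        u h ≠ k • ((1 - l) • v + l • v') := by
  have hfin : (⋃ h ∈ H, {l : ℝ | ∃ k : ℝ, k ≠ 0 ∧ α h = k * ((1 - l) * A + l * A') ∧
      u h = k • ((1 - l) • v + l • v')}).Finite := by
    refine H.finite_toSet.biUnion fun h _ => Subsingleton.finite ?_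
    rintro l ⟨k, k0, k1, k2⟩ l' ⟨k', -, k3, k4⟩
    obtain ⟨e1, e2⟩ := ind (k * (1 - l) - k' * (1 - l')) (k * l - k' * l') (by linarith) (by
      rw [k2] at k4
      linear_combination (norm := module) k4)
    have e3 : k' = k := by linarith
    rw [e3, ← mul_sub] at e2
    exact sub_eq_zero.1 ((mul_eq_zero.1 e2).resolve_left k0)
  have e1 : ∀ᶠ l : ℝ in 𝓝 0, 0 < (1 - l) * A + l * A' :=
    Continuous.continuousAt (by fun_prop) |>.eventually (lt_mem_nhds (by simpa using h0))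
  have e2 : ∀ᶠ l : ℝ in 𝓝 0, 0 < 4 * ‖(1 - l) • v + l • v'‖ ^ 2 * c - ((1 - l) * A + l * A') ^ 2 :=
    Continuous.continuousAt (by fun_prop) |>.eventually (lt_mem_nhds (by simpa using h1))
  obtain ⟨ε, ε0, hε⟩ := mem_nhdsGT_iff_exists_Ioo_subset.1
    (nhdsWithin_le_nhds ((e1.and e2).and (gt_mem_nhds (zero_lt_one' ℝ))))
  obtain ⟨l, hl, hl'⟩ := ((Ioo_infinite ε0).sdiff hfin).nonempty
  obtain ⟨⟨a1, a2⟩, a3⟩ := hε hl
  exact ⟨l, hl.1, a3, a1, sub_pos.1 a2, fun h hh k k0 k1 k2 =>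
    hl' (mem_iUnion₂.2 ⟨h, hh, k, k0, k1, k2⟩)⟩

end Slx

open Slx in
theorem sSlice : SSlice := by
  classical
  intro d B o M ρ a b h2 ρ0 ⟨H, H1, H2⟩ ⟨p1, p2, p3⟩
  obtain ⟨v, hv⟩ : ∃ v, v = M.starProjection (a - o) := ⟨_, rfl⟩
  obtain ⟨v', hv'⟩ : ∃ v', v' = M.starProjection (b - o) := ⟨_, rfl⟩
  have vM : v ∈ M := hv ▸ M.starProjection_apply_mem _
  have vM' : v' ∈ M := hv' ▸ M.starProjection_apply_mem _
  rw [← hv] at p2
  rw [← hv, ← hv'] at p3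
  have ind : ∀ s r : ℝ, s * al o ρ a + r * al o ρ b = 0 → s • v + r • v' = 0 → s = 0 ∧ r = 0 := by
    intro s r e1 e2
    have r0 : r = 0 := by
      by_contra r0
      refine p3 (-s / r) ⟨by field_simp; linarith, smul_right_injective _ r0 ?_⟩
      simp only [smul_smul, mul_div_cancel₀ _ r0]
      linear_combination (norm := module) e2
    rw [r0, zero_mul, add_zero] at e1
    exact ⟨(mul_eq_zero.1 e1).resolve_right p1.ne', r0⟩
  obtain ⟨l, l0, l1, l2, l3, l4⟩ := choose_l H (fun h => 2 * (h.2 - ⟪o, h.1⟫))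
    (fun h => M.starProjection h.1) p1 p2 ind
  obtain ⟨N, hN⟩ : ∃ N, N = ‖(1 - l) • v + l • v'‖ := ⟨_, rfl⟩
  have N0 : 0 < N := by
    refine (hN ▸ norm_nonneg _ : 0 ≤ N).lt_of_ne fun e => ?_
    rw [← hN, ← e] at l3
    nlinarith
  obtain ⟨ν, hν⟩ : ∃ ν, ν = N⁻¹ • ((1 - l) • v + l • v') := ⟨_, rfl⟩
  obtain ⟨t, ht⟩ : ∃ t, t = ((1 - l) * al o ρ a + l * al o ρ b) / (2 * N) := ⟨_, rfl⟩
  have νM : ν ∈ M := hν ▸ M.smul_mem _ (M.add_mem (M.smul_mem _ vM) (M.smul_mem _ vM'))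
  have ν1 : ‖ν‖ = 1 := by
    rw [hν, norm_smul, ← hN, norm_inv, Real.norm_of_nonneg N0.le, inv_mul_cancel₀ N0.ne']
  have eν : (1 - l) • v + l • v' = N • ν := by rw [hν, smul_smul, mul_inv_cancel₀ N0.ne', one_smul]
  have et : (1 - l) * al o ρ a + l * al o ρ b = 2 * t * N := by rw [ht]; field_simp
  have t0 : 0 < t := ht ▸ div_pos l2 (by positivity)
  have big : 1 / 2 < ρ ^ 2 - t ^ 2 := by
    rw [← hN, et] at l3
    have := lt_of_mul_lt_mul_left (a := 4 * N ^ 2) (b := t ^ 2) (c := ρ ^ 2 - 1 / 2)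
      (by linarith) (by positivity)
    linarith
  have νν : ⟪ν, ν⟫ = 1 := by rw [real_inner_self_eq_norm_sq, ν1, one_pow]
  obtain ⟨r', hr'⟩ : ∃ r', r' = √(ρ ^ 2 - t ^ 2) := ⟨_, rfl⟩
  have r0 : 0 < r' := hr' ▸ Real.sqrt_pos.2 (by linarith)
  have r2 : r' ^ 2 = ρ ^ 2 - t ^ 2 := hr' ▸ Real.sq_sqrt (by linarith)
  have sl : ∀ y ∈ Sph (o + t • ν) (M ⊓ (ℝ ∙ ν)ᗮ) r', y ∈ Sph o M ρ ∧ ⟪y - o, ν⟫ = t := by
    intro y hy
    have e : y - o = t • ν + (y - (o + t • ν)) := by abel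
    have w0 : ⟪ν, y - (o + t • ν)⟫ = 0 := Submodule.mem_orthogonal_singleton_iff_inner_right.1 hy.1.2
    refine ⟨⟨e ▸ M.add_mem (M.smul_mem _ νM) hy.1.1, ?_⟩, ?_⟩
    · refine (pow_left_inj₀ (norm_nonneg _) ρ0.le two_ne_zero).1 ?_
      rw [e, norm_add_sq_real, hy.2, r2, inner_smul_left, w0, norm_smul, ν1, Real.norm_eq_abs,
        mul_one, sq_abs]
      simp
    · rw [e, inner_add_left, inner_smul_left, νν, real_inner_comm, w0]
      simp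
  have pt : ∀ e ∈ M, ‖e‖ = 1 → ⟪e, ν⟫ = 0 → ∃ y ∈ Sph (o + t • ν) (M ⊓ (ℝ ∙ ν)ᗮ) r',
      ⟪y - o, e⟫ = r' := by
    intro e e1 e2 e3
    refine ⟨o + t • ν + r' • e, ⟨?_, ?_⟩, ?_⟩
    · rw [add_sub_cancel_left]
      exact Submodule.smul_mem _ _ ⟨e1, Submodule.mem_orthogonal_singleton_iff_inner_left.2 e3⟩
    · rw [add_sub_cancel_left, norm_smul, e2, mul_one, Real.norm_of_nonneg r0.le]
    · rw [add_assoc, add_sub_cancel_left, inner_add_left, inner_smul_left, inner_smul_left,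
        real_inner_comm, e3, real_inner_self_eq_norm_sq, e2]
      simp
  have lu : ∀ y ∈ Sph (o + t • ν) (M ⊓ (ℝ ∙ ν)ᗮ) r', ‖y - a‖ ^ 2 ≠ ‖y - b‖ ^ 2 →
      y ∈ Lune a b ∪ Lune b a := by
    intro y hy hn
    refine lune l0 l1 ?_ hn
    have e := congrArg (fun x => ⟪y - o, x⟫) eν
    simp only [inner_add_right, inner_smul_right, (sl y hy).2] at e
    rw [f_eq (sl y hy).1, f_eq (sl y hy).1, ← hv, ← hv']
    linarith
  obtain ⟨e₀, e1, e2, e3, β, r, r1, hD⟩ := dir h2 νM ν1 (M.sub_mem vM' vM)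
  have gq : ∀ y ∈ Sph (o + t • ν) (M ⊓ (ℝ ∙ ν)ᗮ) r', ‖y - b‖ ^ 2 - ‖y - a‖ ^ 2 =
      al o ρ b - al o ρ a - 2 * t * β - 2 * r * ⟪y - o, e₀⟫ := by
    intro y hy
    have e := congrArg (fun x => ⟪y - o, x⟫) hD
    simp only [inner_add_right, inner_smul_right, (sl y hy).2] at e
    have k1 := f_eq (sl y hy).1 a
    have k2 := f_eq (sl y hy).1 b
    rw [← hv] at k1
    rw [← hv'] at k2
    rw [inner_sub_right] at e
    linarith
  have nz : al o ρ b - al o ρ a - 2 * t * β = 0 → r ≠ 0 := by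
    intro g0 g1
    rw [g1, zero_smul, add_zero] at hD
    obtain ⟨k1, k2⟩ := ind (-N - β * (1 - l)) (N - β * l) (by linear_combination N * g0 - β * et)
      (by linear_combination (norm := module) N • hD - β • eν)
    have : β = 0 := by linarith
    rw [this] at k2
    linarith
  obtain ⟨e, f1, f2, f3, f4⟩ : ∃ e ∈ M, ‖e‖ = 1 ∧ ⟪e, ν⟫ = 0 ∧
      ∀ y ∈ Sph (o + t • ν) (M ⊓ (ℝ ∙ ν)ᗮ) r', 0 < ⟪y - o, e⟫ → ‖y - a‖ ^ 2 ≠ ‖y - b‖ ^ 2 := by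
    rcases lt_or_ge 0 (al o ρ b - al o ρ a - 2 * t * β) with g | g
    · refine ⟨-e₀, M.neg_mem e1, by rw [norm_neg, e2], by rw [inner_neg_left, e3, neg_zero],
        fun y hy h k => ?_⟩
      rw [inner_neg_right] at h
      nlinarith [gq y hy, mul_nonneg r1 h.le]
    · refine ⟨e₀, e1, e2, e3, fun y hy h k => ?_⟩
      have k1 := gq y hy
      have k2 := mul_nonneg r1 h.le
      exact mul_ne_zero (nz (by linarith)) h.ne' (by linarith)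
  have bis : ∀ y : E d, ‖y - a‖ ^ 2 ≠ ‖y - b‖ ^ 2 ↔ ⟪y, b - a⟫ ≠ (‖b‖ ^ 2 - ‖a‖ ^ 2) / 2 := by
    intro y
    rw [norm_sub_sq_real, norm_sub_sq_real, inner_sub_right]
    exact ⟨fun h k => h (by linarith), fun h k => h (by linarith)⟩
  refine ⟨ν, e, t, ⟨νM, ν1, f1, f2, f3, t0, big⟩, fun _ => ?_, ?_⟩
  · rw [← hr']
    refine ⟨insert (b - a, (‖b‖ ^ 2 - ‖a‖ ^ 2) / 2) H, fun h hh => ?_, fun y hy h => ?_⟩
    · rcases Finset.mem_insert.1 hh with rfl | hh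
      · obtain ⟨y, y1, y2⟩ := pt e f1 f2 f3
        exact ⟨y, y1, (bis y).1 (f4 y y1 (y2 ▸ r0))⟩
      by_contra k
      push Not at k
      obtain ⟨x, x1, x2, x3, γ, s, -, hx⟩ := dir h2 νM ν1 (M.starProjection_apply_mem h.1)
      have ev : ∀ y ∈ Sph o M ρ, ⟪y, h.1⟫ = ⟪o, h.1⟫ + γ * ⟪y - o, ν⟫ + s * ⟪y - o, x⟫ := by
        intro y hy
        have := ip_proj hy.1 h.1
        rw [hx, inner_add_right, inner_smul_right, inner_smul_right, inner_sub_left y o h.1] at this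
        linarith
      obtain ⟨y, y1, y2⟩ := pt x x1 x2 x3
      obtain ⟨z, z1, z2⟩ := pt (-x) (M.neg_mem x1) (by rw [norm_neg, x2])
        (by rw [inner_neg_left, x3, neg_zero])
      rw [inner_neg_right, neg_eq_iff_eq_neg] at z2
      have k1 := ev y (sl y y1).1
      have k2 := ev z (sl z z1).1
      rw [k y y1, (sl y y1).2, y2] at k1
      rw [k z z1, (sl z z1).2, z2] at k2
      have s0 : s = 0 := (mul_eq_zero.1 (by linarith : s * r' = 0)).resolve_right r0.ne'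
      rw [s0] at k1 hx ev
      by_cases γ0 : γ = 0
      · obtain ⟨q, q1, q2⟩ := H1 h hh
        rw [γ0] at k1 ev
        exact q2 (by linarith [ev q q1])
      · refine l4 h hh (γ / N) (div_ne_zero γ0 N0.ne') ?_ ?_
        · rw [et]
          field_simp
          linarith
        · rw [eν, smul_smul, div_mul_cancel₀ _ N0.ne', hx, zero_smul, add_zero]
    · exact ⟨H2 y (sl y hy).1 fun h' hh => h h' (Finset.mem_insert_of_mem hh),
        lu y hy ((bis y).2 (h _ (Finset.mem_insert_self _ _)))⟩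
  · rw [← hr']
    exact fun y hy h => lu y hy (f4 y hy h)

end Pool.Agent.MP_66cee2_co.S4
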