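import Pool.Agent.MP_66cee2_co.S4.Spec

/-
Row Start: the first two steps.
-/

namespace Pool.Agent.MP_66cee2_co.S4

open Set Metric Module Pool.Agent.MP_66cee2_co.X Pool.Agent.MP_66cee2_co.D
open Pool.Agent.MP_66cee2_co.TR Pool.Agent.MP_66cee2_co.Q Pool.Agent.MP_66cee2_co.S3
open scoped RealInnerProductSpace

namespace Startx

theorem capD {d : ℕ} (m e : E d) (ρ η : ℝ) (e1 : ‖e‖ = 1) (ρ0 : 0 < ρ) (ρ1 : 99 / 100 ≤ ρ ^ 2)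
    (η0 : 0 < η) :
    ∃ (F : Submodule ℝ (E d)) (φ : F × ℝ → E d), d - 1 ≤ finrank ℝ F ∧ Continuous φ ∧
      (∀ p ∈ Cyl F, φ p ∈ CapS m e ρ η) ∧
      (∀ p ∈ Cyl F, ∀ q ∈ Cyl F, ‖p.1‖ = 1 → ‖q.1‖ = 1 → ‖φ p - φ q‖ ≤ 1 → 0 < ⟪p.1, q.1⟫) ∧
      ∀ p ∈ Cyl F, ∀ q ∈ Cyl F, p.2 = 0 → q.2 = 1 → φ p ≠ φ q := by
  obtain ⟨F, hF⟩ : ∃ F : Submodule ℝ (E d), F = (ℝ ∙ e)ᗮ := ⟨_, rfl⟩
  have FM : ∀ x : F, ⟪(x : E d), e⟫ = 0 := fun x => by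
    have h : (x : E d) ∈ (ℝ ∙ e)ᗮ := hF ▸ x.2
    exact Submodule.mem_orthogonal_singleton_iff_inner_left.1 h
  have FM' : ∀ x : F, ⟪e, (x : E d)⟫ = 0 := fun x => by
    rw [real_inner_comm]
    exact FM x
  have ee : ⟪e, e⟫ = 1 := by
    rw [real_inner_self_eq_norm_sq, e1]
    norm_num
  have Fd : d - 1 ≤ finrank ℝ F := by
    have e0 : e ≠ 0 := by
      rintro rfl
      simp at e1
    have f1 := Submodule.finrank_add_finrank_orthogonal (ℝ ∙ e)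
    rw [finrank_span_singleton e0, finrank_euclideanSpace_fin] at f1
    rw [hF]
    omega
  let ω : F × ℝ → E d := fun p =>
    (5 / 7 : ℝ) • (p.1 : E d) + √(1 - 25 / 49 * ‖p.1‖ ^ 2) • e
  let φ : F × ℝ → E d := fun p => m + ((1 + η * p.2) * ρ) • ω p
  have φc : Continuous φ := by fun_prop
  have h0 : ∀ p ∈ Cyl F, 24 / 49 ≤ 1 - 25 / 49 * ‖p.1‖ ^ 2 := fun p hp => by
    nlinarith [hp.1, norm_nonneg p.1]
  have ωn : ∀ p ∈ Cyl F, ‖ω p‖ = 1 := fun p hp => by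
    have h3 : ‖ω p‖ ^ 2 = 1 := by
      simp only [ω]
      rw [norm_add_sq_real, inner_smul_right, real_inner_smul_left, FM p.1, norm_smul, norm_smul,
        e1, Real.norm_eq_abs, Real.norm_eq_abs, mul_one, mul_pow, sq_abs, sq_abs,
        Real.sq_sqrt (by linarith [h0 p hp]), Submodule.coe_norm]
      ring
    nlinarith [norm_nonneg (ω p)]
  have a1 : ∀ p ∈ Cyl F, 1 ≤ 1 + η * p.2 := fun p hp => by nlinarith [hp.2.1]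
  have φn : ∀ p ∈ Cyl F, ‖φ p - m‖ = (1 + η * p.2) * ρ := fun p hp => by
    simp only [φ]
    rw [add_sub_cancel_left, norm_smul, ωn p hp, Real.norm_eq_abs, mul_one,
      abs_of_pos (mul_pos (by linarith [a1 p hp]) ρ0)]
  refine ⟨F, φ, Fd, φc, fun p hp => ⟨?_, ?_, ?_⟩, fun p hp q hq np nq h3 => ?_,
    fun p hp q hq p0 q1 h => ?_⟩
  · rw [φn p hp]
    exact le_mul_of_one_le_left ρ0.le (a1 p hp)
  · rw [φn p hp]
    exact mul_le_mul_of_nonneg_right (by nlinarith [hp.2.2]) ρ0.le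
  · rw [φn p hp]
    have h5 : ⟪φ p - m, e⟫ = (1 + η * p.2) * ρ * √(1 - 25 / 49 * ‖p.1‖ ^ 2) := by
      simp only [φ, ω, add_sub_cancel_left, real_inner_smul_left, inner_add_left, FM, ee]
      ring
    have h6 : (69 / 100 : ℝ) ≤ √(1 - 25 / 49 * ‖p.1‖ ^ 2) :=
      Real.le_sqrt_of_sq_le (by linarith [h0 p hp])
    rw [h5, mul_comm]
    exact mul_le_mul_of_nonneg_left h6 (mul_pos (by linarith [a1 p hp]) ρ0).le
  · have h4 := norm_sub_sq_real (φ p - m) (φ q - m)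
    rw [sub_sub_sub_cancel_right, φn p hp, φn q hq] at h4
    have hs : √(1 - 25 / 49 * (1 : ℝ) ^ 2) * √(1 - 25 / 49 * (1 : ℝ) ^ 2) = 24 / 49 := by
      rw [Real.mul_self_sqrt (by norm_num)]
      norm_num
    have h5 : ⟪φ p - m, φ q - m⟫ =
        (1 + η * p.2) * (1 + η * q.2) * ρ ^ 2 * (25 / 49 * ⟪p.1, q.1⟫ + 24 / 49) := by
      simp only [φ, ω, np, nq, add_sub_cancel_left, real_inner_smul_left, real_inner_smul_right,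
        inner_add_left, inner_add_right, FM, FM', ee, Submodule.coe_inner]
      linear_combination (1 + η * p.2) * (1 + η * q.2) * ρ ^ 2 * hs
    have a3 : ‖φ p - φ q‖ ^ 2 ≤ 1 := by nlinarith [norm_nonneg (φ p - φ q)]
    by_contra hn
    push Not at hn
    have b1 := a1 p hp
    have b2 := a1 q hq
    obtain ⟨A, hA⟩ : ∃ A, A = 1 + η * p.2 := ⟨_, rfl⟩
    obtain ⟨B, hB⟩ : ∃ B, B = 1 + η * q.2 := ⟨_, rfl⟩
    rw [← hA, ← hB] at h4 h5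
    rw [← hA] at b1
    rw [← hB] at b2
    have c1 : 0 ≤ A * B * ρ ^ 2 := by positivity
    have c2 : A * B * ρ ^ 2 * ⟪p.1, q.1⟫ ≤ 0 := mul_nonpos_of_nonneg_of_nonpos c1 hn
    have c3 : 50 / 49 ≤ A ^ 2 + B ^ 2 - 48 / 49 * (A * B) := by nlinarith [sq_nonneg (A - B)]
    have c4 : 99 / 100 * (50 / 49) ≤ ρ ^ 2 * (A ^ 2 + B ^ 2 - 48 / 49 * (A * B)) :=
      mul_le_mul ρ1 c3 (by norm_num) (by positivity)
    nlinarith
  · have b1 := φn p hp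
    have b2 := φn q hq
    rw [h, p0, b2, q1] at b1
    nlinarith

theorem arith (ρ η s : ℝ) (ρ0 : 0 < ρ) (ρ1 : 99 / 100 ≤ ρ ^ 2) (ρ2 : ρ ^ 2 ≤ 1)
    (η1 : η ≤ 1 / 1000) (s1 : ρ ≤ s) (s2 : s ≤ (1 + η) * ρ) :
    0 < ρ ^ 2 + s ^ 2 - 1 ∧ (ρ ^ 2 + s ^ 2 - 1) ^ 2 < 4 * s ^ 2 * (ρ ^ 2 - 1 / 2) := by
  have r1 : ρ ≤ 1 := by nlinarith
  have s3 : s ≤ 1001 / 1000 := by nlinarith
  have s4 : ρ ^ 2 ≤ s ^ 2 := by nlinarith
  have s5 : s ^ 2 ≤ 101 / 100 := by nlinarith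
  have a0 : 0 < ρ ^ 2 + s ^ 2 - 1 := by linarith
  have a1 : ρ ^ 2 + s ^ 2 - 1 ≤ 101 / 100 := by linarith
  have a2 : (ρ ^ 2 + s ^ 2 - 1) ^ 2 ≤ (101 / 100) ^ 2 := pow_le_pow_left₀ a0.le a1 2
  have a3 : 99 / 100 * (49 / 100) ≤ s ^ 2 * (ρ ^ 2 - 1 / 2) :=
    mul_le_mul (by linarith) (by linarith) (by norm_num) (sq_nonneg _)
  exact ⟨a0, by linarith⟩

theorem pr {d : ℕ} {m e a b : E d} {ρ η : ℝ} (ρ0 : 0 < ρ) (ρ1 : 99 / 100 ≤ ρ ^ 2)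
    (ρ2 : ρ ^ 2 ≤ 1) (η1 : η ≤ 1 / 1000) (ha : a ∈ CapS m e ρ η) (hb : b ∈ CapS m e ρ η)
    (hab : a ≠ b) : Pr m ⊤ ρ a b := by
  have top : ∀ v : E d, (⊤ : Submodule ℝ (E d)).starProjection v = v := fun v =>
    Submodule.starProjection_eq_self_iff.2 Submodule.mem_top
  obtain ⟨a1, a2⟩ := arith ρ η _ ρ0 ρ1 ρ2 η1 ha.1 ha.2.1
  obtain ⟨b1, -⟩ := arith ρ η _ ρ0 ρ1 ρ2 η1 hb.1 hb.2.1
  refine ⟨a1, by rw [top]; exact a2, fun μ ⟨k1, k2⟩ => ?_⟩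
  rw [top, top] at k2
  have n1 : ‖b - m‖ ^ 2 = μ ^ 2 * ‖a - m‖ ^ 2 := by
    rw [k2, norm_smul, mul_pow, Real.norm_eq_abs, sq_abs]
  simp only [al] at k1
  have μ0 : 0 < μ := by
    rw [k1] at b1
    exact (mul_pos_iff_of_pos_right a1).1 b1
  have s0 : 0 < ‖a - m‖ ^ 2 := by linarith
  have p0 : 0 < μ * ‖a - m‖ ^ 2 + 1 - ρ ^ 2 := by linarith [mul_pos μ0 s0]
  have p1 : (μ - 1) * (μ * ‖a - m‖ ^ 2 + 1 - ρ ^ 2) = 0 := by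
    rw [n1] at k1
    linarith
  have p2 : μ = 1 := by linarith [(mul_eq_zero.1 p1).resolve_right p0.ne']
  rw [p2, one_smul] at k2
  exact hab (sub_left_injective k2).symm

end Startx

open Startx

theorem sStart (h1 : S3.SFoldG) (h2 : S3.SMid) : SStart := by
  intro d n O hd hO
  obtain ⟨F₀, φ₀, g1, g2, g3, g4, g5⟩ := capD (0 : E d) (EuclideanSpace.single ⟨0, by omega⟩ 1) 1 1
    (by simp) one_pos (by norm_num) one_pos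
  obtain ⟨W₁, a₁, -, b₁, -, c1, c2, c3, c4, c5⟩ := h1 d n 0 (d - 1) O univ ⊤ F₀ φ₀ _ (1 / 10) hO
    isOpen_univ (fun _ _ _ _ => Submodule.mem_top)
    ⟨0, fun i => i.elim0, fun i => i.elim0, fun i => i.elim0, fun _ _ i => i.elim0, Or.inl le_rfl⟩
    g1 g2 g3 (subset_univ _) g4 g5 (by norm_num)
  obtain ⟨m, e, ρ, e1, ρ0, ρ1, -, m1, m2, η, η0, η1, m3⟩ := h2 d a₁ b₁ c1 (by linarith)
  have n0 := norm_nonneg (a₁ - b₁)
  have ρ2 : 99 / 100 ≤ ρ ^ 2 := by nlinarith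
  have ρ3 : ρ ^ 2 ≤ 1 := by nlinarith
  have hB : IsOpen (Lune a₁ b₁ ∪ Lune b₁ a₁) := (isOpen_lune _ _).union (isOpen_lune _ _)
  obtain ⟨F, φ, f1, f2, f3, f4, f5⟩ := capD m e ρ η e1 ρ0 ρ2 η0
  obtain ⟨W, a, ha, b, hb, b1, -, b3, b4, b5⟩ := h1 d n _ (d - 1) O _ W₁ F φ _ (1 / 10) hO hB
    (fun v y hy k => k.elim (fun h => c4 v y hy ⟨mem_univ _, h⟩) fun h => c5 v y hy ⟨mem_univ _, h⟩)
    c3 f1 f2 f3 (m3.trans subset_union_left) f4 f5 (by norm_num)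
  refine ⟨_, m, ρ, a, b, W, hB, ρ0, ⟨{(e, ⟪m, e⟫)}, ?_, ?_⟩, pr ρ0 ρ2 ρ3 η1 ha hb b1,
    fun v y hy k => k.2.elim (fun h => b4 v y hy ⟨k.1, h⟩) fun h => b5 v y hy ⟨k.1, h⟩, ?_⟩
  · intro h hh
    rw [Finset.mem_singleton.1 hh]
    refine ⟨m + ρ • e, ⟨Submodule.mem_top, ?_⟩, ?_⟩
    · rw [add_sub_cancel_left, norm_smul, e1, mul_one, Real.norm_eq_abs, abs_of_pos ρ0]
    · show ⟪m + ρ • e, e⟫ ≠ ⟪m, e⟫
      rw [inner_add_left, real_inner_smul_left, real_inner_self_eq_norm_sq, e1]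
      intro k
      linarith
  · intro y hy k
    have k1 : ⟪y, e⟫ ≠ ⟪m, e⟫ := k (e, ⟪m, e⟫) (Finset.mem_singleton_self _)
    have k2 : ⟪y - m, e⟫ ≠ 0 := by
      rw [inner_sub_left]
      exact sub_ne_zero.2 k1
    rcases lt_or_gt_of_ne k2 with h | h
    · exact Or.inr (m2 y hy.2 h)
    · exact Or.inl (m1 y hy.2 h)
  · rwa [show 0 + (d - 1 + 1) + (d - 1 + 1) = 2 * d by omega] at b3

end Pool.Agent.MP_66cee2_co.S4
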