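import Pool.Agent.MP_66cee2_co.S4.Spec

/-
Row Chart: a cap of the slice, thick along the sphere.
-/

namespace Pool.Agent.MP_66cee2_co.S4

open Set Metric Module Filter Topology Pool.Agent.MP_66cee2_co.X Pool.Agent.MP_66cee2_co.D
open Pool.Agent.MP_66cee2_co.TR Pool.Agent.MP_66cee2_co.Q
open scoped RealInnerProductSpace

namespace Chartx

theorem drop {d : ℕ} (M : Submodule ℝ (E d)) {e : E d} (e1 : ‖e‖ = 1) :
    finrank ℝ M ≤ finrank ℝ (M ⊓ (ℝ ∙ e)ᗮ : Submodule ℝ (E d)) + 1 := by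
  have e0 : e ≠ 0 := by
    rintro rfl
    simp at e1
  have f1 := Submodule.finrank_add_finrank_orthogonal (ℝ ∙ e)
  have f2 := Submodule.finrank_sup_add_finrank_inf_eq M (ℝ ∙ e)ᗮ
  have f3 := Submodule.finrank_le (M ⊔ (ℝ ∙ e)ᗮ)
  rw [finrank_span_singleton e0] at f1
  omega

theorem pyth {d : ℕ} {ν e w : E d} (ν1 : ‖ν‖ = 1) (e1 : ‖e‖ = 1) (eν : ⟪e, ν⟫ = 0)
    (wν : ⟪w, ν⟫ = 0) (we : ⟪w, e⟫ = 0) (a c : ℝ) :
    ‖a • ν + c • e + w‖ ^ 2 = a ^ 2 + c ^ 2 + ‖w‖ ^ 2 := by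
  have h1 : ⟪ν, e⟫ = 0 := by rw [real_inner_comm]; exact eν
  have h2 : ⟪ν, w⟫ = 0 := by rw [real_inner_comm]; exact wν
  have h3 : ⟪e, w⟫ = 0 := by rw [real_inner_comm]; exact we
  rw [norm_add_sq_real, norm_add_sq_real, inner_add_left, real_inner_smul_left,
    real_inner_smul_left, real_inner_smul_left, real_inner_smul_right, h1, h2, h3, norm_smul,
    norm_smul, ν1, e1, Real.norm_eq_abs, Real.norm_eq_abs, mul_one, mul_one, sq_abs, sq_abs]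
  ring

end Chartx

open Chartx in
theorem sChart : SChart := by
  intro d o M ρ ν e t η U ρ0 hS η0 hU hcap
  obtain ⟨νM, ν1, eM, e1, eν, t0, big⟩ := hS
  obtain ⟨F, hF⟩ : ∃ F : Submodule ℝ (E d), F = (M ⊓ (ℝ ∙ ν)ᗮ) ⊓ (ℝ ∙ e)ᗮ := ⟨_, rfl⟩
  have FM : ∀ x : F, (x : E d) ∈ M ⊓ (ℝ ∙ ν)ᗮ ∧ ⟪(x : E d), ν⟫ = 0 ∧ ⟪(x : E d), e⟫ = 0 :=
    fun x => by
      have h : (x : E d) ∈ (M ⊓ (ℝ ∙ ν)ᗮ) ⊓ (ℝ ∙ e)ᗮ := hF ▸ x.2
      exact ⟨h.1, Submodule.mem_orthogonal_singleton_iff_inner_left.1 h.1.2,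
        Submodule.mem_orthogonal_singleton_iff_inner_left.1 h.2⟩
  have Fd : finrank ℝ M ≤ finrank ℝ F + 2 := by
    have f1 := drop M ν1
    have f2 := drop (M ⊓ (ℝ ∙ ν)ᗮ) e1
    rw [hF]
    omega
  have eM' : e ∈ M ⊓ (ℝ ∙ ν)ᗮ := ⟨eM, Submodule.mem_orthogonal_singleton_iff_inner_left.2 eν⟩
  have νν : ⟪ν, ν⟫ = 1 := by rw [real_inner_self_eq_norm_sq, ν1]; norm_num
  have ee : ⟪e, e⟫ = 1 := by rw [real_inner_self_eq_norm_sq, e1]; norm_num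
  have νe : ⟪ν, e⟫ = 0 := by rw [real_inner_comm]; exact eν
  obtain ⟨g, g0, g1, g2⟩ : ∃ g : ℝ, 0 < g ∧ g ^ 2 < 1 ∧ 1 / 2 < g ^ 2 * (ρ ^ 2 - t ^ 2) := by
    have hA : 0 < ρ ^ 2 - t ^ 2 := by linarith
    have hp : 0 < (ρ ^ 2 - t ^ 2 + 1 / 2) / (2 * (ρ ^ 2 - t ^ 2)) := by positivity
    refine ⟨√((ρ ^ 2 - t ^ 2 + 1 / 2) / (2 * (ρ ^ 2 - t ^ 2))), Real.sqrt_pos.2 hp, ?_, ?_⟩
    · rw [Real.sq_sqrt hp.le, div_lt_one (by positivity)]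
      linarith
    · rw [Real.sq_sqrt hp.le, div_mul_eq_mul_div, lt_div_iff₀ (by positivity)]
      nlinarith
  let r : ℝ → ℝ := fun x => √(ρ ^ 2 - (t + x) ^ 2)
  let v : ℝ × F → E d := fun z => (t + z.1) • ν + (r z.1 * √(1 - g ^ 2 * ‖z.2‖ ^ 2)) • e +
    (((r z.1 * g) • z.2 : F) : E d)
  have vc : Continuous v := by
    simp only [v, r]
    fun_prop
  have c0 : ∀ p : F, ‖p‖ ≤ 1 → 0 < 1 - g ^ 2 * ‖p‖ ^ 2 := fun p hp => by
    have h1 : ‖p‖ ^ 2 ≤ 1 := by nlinarith [norm_nonneg p]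
    nlinarith [sq_nonneg g]
  have vn : ∀ (a x : ℝ) (p : F), ‖p‖ ≤ 1 → 0 ≤ ρ ^ 2 - (t + x) ^ 2 →
      ‖a • ν + (r x * √(1 - g ^ 2 * ‖p‖ ^ 2)) • e + (((r x * g) • p : F) : E d)‖ ^ 2 =
        a ^ 2 + (ρ ^ 2 - (t + x) ^ 2) := fun a x p hp hx => by
    rw [pyth ν1 e1 eν (FM _).2.1 (FM _).2.2, ← Submodule.coe_norm, norm_smul, mul_pow, mul_pow,
      Real.sq_sqrt (c0 p hp).le, Real.norm_eq_abs, sq_abs, mul_pow, Real.sq_sqrt hx]
    ring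
  have vν : ∀ z, ⟪v z, ν⟫ = t + z.1 := fun z => by
    simp only [v]
    rw [inner_add_left, inner_add_left, (FM _).2.1, real_inner_smul_left, real_inner_smul_left,
      νν, eν]
    ring
  have vU : ∀ p : F, ‖p‖ ≤ 1 → o + v (0, p) ∈ U := fun p hp => by
    have hx : 0 ≤ ρ ^ 2 - (t + 0) ^ 2 := by rw [add_zero]; linarith
    have e0 : o + v (0, p) - (o + t • ν) = (0 : ℝ) • ν +
        (r 0 * √(1 - g ^ 2 * ‖p‖ ^ 2)) • e + (((r 0 * g) • p : F) : E d) := by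
      simp only [v, add_zero, zero_smul]
      abel
    refine hcap _ ⟨?_, ?_⟩ ?_
    · rw [e0, zero_smul, zero_add]
      exact Submodule.add_mem _ (Submodule.smul_mem _ _ eM') (FM _).1
    · have h := vn 0 0 p hp hx
      rw [← e0] at h
      rw [← Real.sqrt_sq (norm_nonneg _), h]
      congr 1
      ring
    · rw [add_sub_cancel_left]
      simp only [v]
      rw [inner_add_left, inner_add_left, (FM _).2.2, real_inner_smul_left, real_inner_smul_left,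
        νe, ee, mul_zero, zero_add, add_zero, mul_one]
      exact mul_pos (Real.sqrt_pos.2 (by rw [add_zero]; linarith)) (Real.sqrt_pos.2 (c0 p hp))
  have ev1 : ∀ᶠ x in 𝓝 (0 : ℝ), ∀ p ∈ closedBall (0 : F) 1, o + v (x, p) ∈ U := by
    have := FiniteDimensional.proper_real F
    refine (isCompact_closedBall (0 : F) 1).eventually_forall_of_forall_eventually
      (P := fun x p => o + v (x, p) ∈ U) fun p hp => ?_
    exact (continuous_const.add vc).continuousAt.eventually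
      (hU.mem_nhds (vU p (mem_closedBall_zero_iff.1 hp)))
  have ev2 : ∀ᶠ x in 𝓝 (0 : ℝ), 1 / 2 < g ^ 2 * (ρ ^ 2 - (t + x) ^ 2) := by
    have hc : Continuous fun x : ℝ => g ^ 2 * (ρ ^ 2 - (t + x) ^ 2) := by fun_prop
    exact hc.continuousAt.eventually (lt_mem_nhds (by simpa using g2))
  obtain ⟨δ, d0, d1⟩ := Metric.eventually_nhds_iff.1 (ev1.and ev2)
  obtain ⟨τ, τ0, τ1, τ2⟩ : ∃ τ : ℝ, 0 < τ ∧ τ ≤ η ∧ τ < δ :=
    ⟨min η (δ / 2), lt_min η0 (half_pos d0), min_le_left _ _,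
      (min_le_right _ _).trans_lt (half_lt_self d0)⟩
  have hx : ∀ p ∈ Cyl F, 0 ≤ τ * p.2 ∧ τ * p.2 ≤ τ := fun p hp =>
    ⟨mul_nonneg τ0.le hp.2.1, mul_le_of_le_one_right τ0.le hp.2.2⟩
  have ok : ∀ p ∈ Cyl F, (∀ q ∈ closedBall (0 : F) 1, o + v (τ * p.2, q) ∈ U) ∧
      1 / 2 < g ^ 2 * (ρ ^ 2 - (t + τ * p.2) ^ 2) := fun p hp => d1 (by
    rw [Real.dist_eq, sub_zero, abs_of_nonneg (hx p hp).1]
    linarith [(hx p hp).2])
  have pos : ∀ p ∈ Cyl F, 0 ≤ ρ ^ 2 - (t + τ * p.2) ^ 2 := fun p hp =>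
    (pos_of_mul_pos_right (lt_trans (by norm_num) (ok p hp).2) (sq_nonneg g)).le
  refine ⟨F, fun p => o + v (τ * p.2, p.1), Fd, by fun_prop, fun p hp => ⟨⟨?_, ?_⟩, ?_, ?_⟩,
    fun p hp q hq np nq h3 => ?_, fun p hp q hq p0 q1 h => ?_⟩
  · rw [add_sub_cancel_left]
    exact M.add_mem (M.add_mem (M.smul_mem _ νM) (M.smul_mem _ eM)) (FM _).1.1
  · rw [add_sub_cancel_left]
    have h := vn (t + τ * p.2) (τ * p.2) p.1 hp.1 (pos p hp)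
    refine (pow_left_inj₀ (norm_nonneg _) ρ0.le two_ne_zero).1 (h.trans (by ring))
  · exact (ok p hp).1 _ (mem_closedBall_zero_iff.2 hp.1)
  · rw [add_sub_cancel_left, vν]
    exact ⟨by linarith [(hx p hp).1], by linarith [(hx p hp).2]⟩
  · by_contra hn
    push Not at hn
    obtain ⟨a, ha⟩ : ∃ a, a = r (τ * p.2) := ⟨_, rfl⟩
    obtain ⟨b, hb⟩ : ∃ b, b = r (τ * q.2) := ⟨_, rfl⟩
    have e0 : o + v (τ * p.2, p.1) - (o + v (τ * q.2, q.1)) = (τ * p.2 - τ * q.2) • ν +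
        (a * √(1 - g ^ 2 * ‖p.1‖ ^ 2) - b * √(1 - g ^ 2 * ‖q.1‖ ^ 2)) • e +
        (((a * g) • p.1 - (b * g) • q.1 : F) : E d) := by
      simp only [v, ← ha, ← hb, Submodule.coe_sub, sub_smul, add_smul]
      abel
    have h4 := pyth ν1 e1 eν (FM ((a * g) • p.1 - (b * g) • q.1)).2.1
      (FM ((a * g) • p.1 - (b * g) • q.1)).2.2 (τ * p.2 - τ * q.2)
      (a * √(1 - g ^ 2 * ‖p.1‖ ^ 2) - b * √(1 - g ^ 2 * ‖q.1‖ ^ 2))
    have hi : ⟪(a * g) • p.1, (b * g) • q.1⟫ = a * g * (b * g * ⟪p.1, q.1⟫) := by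
      simp only [Submodule.coe_inner, Submodule.coe_smul, real_inner_smul_left,
        real_inner_smul_right]
      ring
    rw [← e0, ← Submodule.coe_norm, norm_sub_sq_real ((a * g) • p.1), norm_smul, norm_smul,
      np, nq, hi, Real.norm_eq_abs, Real.norm_eq_abs,
      mul_one, mul_one, sq_abs, sq_abs] at h4
    have a2 : a ^ 2 = ρ ^ 2 - (t + τ * p.2) ^ 2 := by rw [ha]; exact Real.sq_sqrt (pos p hp)
    have b2 : b ^ 2 = ρ ^ 2 - (t + τ * q.2) ^ 2 := by rw [hb]; exact Real.sq_sqrt (pos q hq)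
    have a0 : 0 ≤ a := by rw [ha]; exact Real.sqrt_nonneg _
    have b0 : 0 ≤ b := by rw [hb]; exact Real.sqrt_nonneg _
    have a3 := (ok p hp).2
    have b3 := (ok q hq).2
    rw [← a2] at a3
    rw [← b2] at b3
    have h5 : a * g * (b * g * ⟪p.1, q.1⟫) ≤ 0 :=
      mul_nonpos_of_nonneg_of_nonpos (by positivity)
        (mul_nonpos_of_nonneg_of_nonpos (by positivity) hn)
    have h6 : ‖o + v (τ * p.2, p.1) - (o + v (τ * q.2, q.1))‖ ^ 2 ≤ 1 :=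
      pow_le_one₀ (norm_nonneg _) h3
    rw [h4, mul_pow, mul_pow] at h6
    nlinarith [sq_nonneg (τ * p.2 - τ * q.2),
      sq_nonneg (a * √(1 - g ^ 2 * 1 ^ 2) - b * √(1 - g ^ 2 * 1 ^ 2))]
  · have h1 := vν (τ * p.2, p.1)
    have h2 := vν (τ * q.2, q.1)
    rw [add_left_cancel h, h2, p0, q1] at h1
    linarith

end Pool.Agent.MP_66cee2_co.S4
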