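import Pool.Agent.MP_66cee2_co.S4.Spec

/-
Row Start: the first two steps.
-/

namespace Pool.Agent.MP_66cee2_co.S4.H11

open Set Metric Module Pool.Agent.MP_66cee2_co.X Pool.Agent.MP_66cee2_co.D
open Pool.Agent.MP_66cee2_co.TR Pool.Agent.MP_66cee2_co.Q Pool.Agent.MP_66cee2_co.S3
open scoped RealInnerProductSpace

theorem hyp {d : ℕ} (e : E d) (e1 : ‖e‖ = 1) :
    ∃ F : Submodule ℝ (E d), d - 1 ≤ finrank ℝ F ∧ ∀ x : F, ⟪(x : E d), e⟫ = 0 := by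
  refine ⟨(ℝ ∙ e)ᗮ, ?_, fun x => Submodule.mem_orthogonal_singleton_iff_inner_left.1 x.2⟩
  have e0 : e ≠ 0 := by
    rintro rfl
    simp at e1
  have f1 := Submodule.finrank_add_finrank_orthogonal (ℝ ∙ e)
  rw [finrank_span_singleton e0, finrank_euclideanSpace_fin] at f1
  omega

theorem cap {d : ℕ} (m e : E d) (ρ η : ℝ) (e1 : ‖e‖ = 1) (ρ0 : 0 < ρ) (ρ1 : 99 / 100 ≤ ρ ^ 2)
    (η0 : 0 < η) :
    ∃ (F : Submodule ℝ (E d)) (φ : F × ℝ → E d), d - 1 ≤ finrank ℝ F ∧ Continuous φ ∧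
      (∀ p ∈ Cyl F, φ p ∈ CapS m e ρ η) ∧
      (∀ p ∈ Cyl F, ∀ q ∈ Cyl F, ‖p.1‖ = 1 → ‖q.1‖ = 1 → ‖φ p - φ q‖ ≤ 1 → 0 < ⟪p.1, q.1⟫) ∧
      ∀ p ∈ Cyl F, ∀ q ∈ Cyl F, p.2 = 0 → q.2 = 1 → φ p ≠ φ q := by
  obtain ⟨F, Fd, FM⟩ := hyp e e1
  have FM' : ∀ x : F, ⟪e, (x : E d)⟫ = 0 := fun x => by
    rw [real_inner_comm]
    exact FM x
  have ee : ⟪e, e⟫ = 1 := by
    rw [real_inner_self_eq_norm_sq, e1]
    norm_num
  let ω : F × ℝ → E d := fun p =>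
    (5 / 7 : ℝ) • (p.1 : E d) + √(1 - 25 / 49 * ‖p.1‖ ^ 2) • e
  let φ : F × ℝ → E d := fun p => m + ((1 + η * p.2) * ρ) • ω p
  have φc : Continuous φ := by fun_prop
  have h0 : ∀ p ∈ Cyl F, 24 / 49 ≤ 1 - 25 / 49 * ‖p.1‖ ^ 2 := fun p hp => by
    nlinarith [hp.1, norm_nonneg p.1]
  have ωn : ∀ p ∈ Cyl F, ‖ω p‖ = 1 := fun p hp => by
    have h3 : ‖ω p‖ ^ 2 = 1 := by
      simp only [ω]
      rw [norm_add_sq_real, inner_smul_right, real_inner_smul_left, FM p.1, norm_smul, norm_smul,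
        e1, Real.norm_eq_abs, Real.norm_eq_abs, mul_one, mul_pow, sq_abs, sq_abs,
        Real.sq_sqrt (by linarith [h0 p hp]), Submodule.coe_norm]
      ring
    nlinarith [norm_nonneg (ω p)]
  have a1 : ∀ p ∈ Cyl F, 1 ≤ 1 + η * p.2 := fun p hp => by nlinarith [hp.2.1]
  have φn : ∀ p ∈ Cyl F, ‖φ p - m‖ = (1 + η * p.2) * ρ := fun p hp => by
    simp only [φ]
    rw [add_sub_cancel_left, norm_smul, ωn p hp, Real.norm_eq_abs, mul_one,
      abs_of_pos (mul_pos (by linarith [a1 p hp]) ρ0)]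
  refine ⟨F, φ, Fd, φc, fun p hp => ⟨?_, ?_, ?_⟩, fun p hp q hq np nq h3 => ?_,
    fun p hp q hq p0 q1 h => ?_⟩
  · rw [φn p hp]
    exact le_mul_of_one_le_left ρ0.le (a1 p hp)
  · rw [φn p hp]
    exact mul_le_mul_of_nonneg_right (by nlinarith [hp.2.2]) ρ0.le
  · rw [φn p hp]
    have h5 : ⟪φ p - m, e⟫ = (1 + η * p.2) * ρ * √(1 - 25 / 49 * ‖p.1‖ ^ 2) := by
      simp only [φ, ω, add_sub_cancel_left, real_inner_smul_left, inner_add_left, FM, ee]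
      ring
    have h6 : (69 / 100 : ℝ) ≤ √(1 - 25 / 49 * ‖p.1‖ ^ 2) :=
      Real.le_sqrt_of_sq_le (by linarith [h0 p hp])
    rw [h5, mul_comm]
    exact mul_le_mul_of_nonneg_left h6 (mul_pos (by linarith [a1 p hp]) ρ0).le
  · have h4 := norm_sub_sq_real (φ p - m) (φ q - m)
    rw [sub_sub_sub_cancel_right, φn p hp, φn q hq] at h4
    have hs : √(1 - 25 / 49 * (1 : ℝ) ^ 2) * √(1 - 25 / 49 * (1 : ℝ) ^ 2) = 24 / 49 := by
      rw [Real.mul_self_sqrt (by norm_num)]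
      norm_num
    have h5 : ⟪φ p - m, φ q - m⟫ =
        (1 + η * p.2) * (1 + η * q.2) * ρ ^ 2 * (25 / 49 * ⟪p.1, q.1⟫ + 24 / 49) := by
      simp only [φ, ω, np, nq, add_sub_cancel_left, real_inner_smul_left, real_inner_smul_right,
        inner_add_left, inner_add_right, FM, FM', ee, Submodule.coe_inner]
      linear_combination (1 + η * p.2) * (1 + η * q.2) * ρ ^ 2 * hs
    have a3 : ‖φ p - φ q‖ ^ 2 ≤ 1 := by nlinarith [norm_nonneg (φ p - φ q)]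
    by_contra hn
    push Not at hn
    have b1 := a1 p hp
    have b2 := a1 q hq
    obtain ⟨A, hA⟩ : ∃ A, A = 1 + η * p.2 := ⟨_, rfl⟩
    obtain ⟨B, hB⟩ : ∃ B, B = 1 + η * q.2 := ⟨_, rfl⟩
    rw [← hA, ← hB] at h4 h5
    rw [← hA] at b1
    rw [← hB] at b2
    have c1 : 0 ≤ A * B * ρ ^ 2 := by positivity
    have c2 : A * B * ρ ^ 2 * ⟪p.1, q.1⟫ ≤ 0 := mul_nonpos_of_nonneg_of_nonpos c1 hn
    have c3 : 50 / 49 ≤ A ^ 2 + B ^ 2 - 48 / 49 * (A * B) := by nlinarith [sq_nonneg (A - B)]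
    have c4 : 99 / 100 * (50 / 49) ≤ ρ ^ 2 * (A ^ 2 + B ^ 2 - 48 / 49 * (A * B)) :=
      mul_le_mul ρ1 c3 (by norm_num) (by positivity)
    nlinarith
  · have b1 := φn p hp
    have b2 := φn q hq
    rw [h, p0, b2, q1] at b1
    nlinarith

theorem first (h1 : SFoldG) {d n : ℕ} (O : (Ix n → ℝ) → Set (E d)) (hd : 2 ≤ d) (hO : Fam O) :
    ∃ (W : Submodule ℝ (Ix n → ℝ)) (a b : E d), a ≠ b ∧ ‖a - b‖ ≤ 1 / 10 ∧ Su d W ∧
      Lab O (Lune a b ∪ Lune b a) W := by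
  obtain ⟨e, e1⟩ : ∃ e : E d, ‖e‖ = 1 :=
    ⟨EuclideanSpace.single ⟨0, by omega⟩ 1, by simp⟩
  obtain ⟨F, Fd, FM⟩ := hyp e e1
  have ee : ⟪e, e⟫ = 1 := by
    rw [real_inner_self_eq_norm_sq, e1]
    norm_num
  let φ : F × ℝ → E d := fun p => (2 : ℝ) • (p.1 : E d) + p.2 • e
  have φc : Continuous φ := by fun_prop
  obtain ⟨W, a, -, b, -, b1, b2, b3, b4, b5⟩ := h1 d n 0 (d - 1) O univ ⊤ F φ univ (1 / 10) hO
    isOpen_univ (fun _ _ _ _ => Submodule.mem_top)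
    ⟨0, fun i => i.elim0, fun i => i.elim0, fun i => i.elim0, fun _ _ i => i.elim0, Or.inl le_rfl⟩
    Fd φc (fun _ _ => mem_univ _) subset_rfl
    (fun p hp q hq np nq h => by
      have k1 : φ p - φ q = (2 : ℝ) • ((p.1 - q.1 : F) : E d) + (p.2 - q.2) • e := by
        simp only [φ, Submodule.coe_sub]
        module
      have k2 : ‖φ p - φ q‖ ^ 2 = 4 * ‖p.1 - q.1‖ ^ 2 + (p.2 - q.2) ^ 2 := by
        rw [k1, norm_add_sq_real, inner_smul_right, real_inner_smul_left, FM, norm_smul,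
          norm_smul, e1, Real.norm_eq_abs, Real.norm_eq_abs, mul_one, mul_pow, sq_abs, sq_abs,
          Submodule.coe_norm]
        ring
      have k3 := norm_sub_sq_real p.1 q.1
      rw [np, nq] at k3
      have k4 : ‖φ p - φ q‖ ^ 2 ≤ 1 := by nlinarith [norm_nonneg (φ p - φ q)]
      nlinarith [sq_nonneg (p.2 - q.2)])
    (fun p hp q hq p0 q1 h => by
      have k : ∀ r : F × ℝ, ⟪φ r, e⟫ = r.2 := fun r => by
        simp only [φ, inner_add_left, real_inner_smul_left, FM, ee]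
        ring
      have := k p
      rw [h, k q, p0, q1] at this
      exact one_ne_zero this)
    (by norm_num)
  refine ⟨W, a, b, b1, b2, ?_, fun v y hy hB =>
    hB.elim (fun h => b4 v y hy ⟨mem_univ _, h⟩) fun h => b5 v y hy ⟨mem_univ _, h⟩⟩
  rwa [show 0 + (d - 1 + 1) = d by omega] at b3

theorem sStart (h1 : S3.SFoldG) (h2 : S3.SMid) : SStart := by
  intro d n O hd hO
  obtain ⟨W, a, b, a1, a2, a3, a4⟩ := first h1 O hd hO
  obtain ⟨m, e, ρ, e1, ρ0, ρ1, -, m1, m3, η, η0, η1, m2⟩ := h2 d a b a1 (by linarith)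
  have n0 := norm_nonneg (a - b)
  have ρ2 : 99 / 100 ≤ ρ ^ 2 := by nlinarith
  have ρ3 : ρ ^ 2 ≤ 1 := by nlinarith
  have opn : IsOpen (Lune a b ∪ Lune b a) := (isOpen_lune a b).union (isOpen_lune b a)
  obtain ⟨F, φ, f1, f2, f3, f4, f5⟩ := cap m e ρ η e1 ρ0 ρ2 η0
  obtain ⟨W', a', ha, b', hb, b1, -, b3, b4, b5⟩ := h1 d n d (d - 1) O _ W F φ _ 1 hO opn a4 a3
    f1 f2 f3 (m2.trans subset_union_left) f4 f5 one_pos
  have sq : ∀ y ∈ CapS m e ρ η, ρ ^ 2 ≤ ‖y - m‖ ^ 2 ∧ ‖y - m‖ ^ 2 ≤ 101 / 100 := fun y hy => by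
    refine ⟨pow_le_pow_left₀ ρ0.le hy.1 2, ?_⟩
    have k1 : ρ ≤ 1 := by nlinarith
    have k2 : ‖y - m‖ ≤ 1001 / 1000 := by nlinarith [hy.2.1]
    nlinarith [norm_nonneg (y - m)]
  have pj : ∀ x : E d, (⊤ : Submodule ℝ (E d)).starProjection x = x := fun x =>
    Submodule.starProjection_eq_self_iff.2 Submodule.mem_top
  obtain ⟨s1, s2⟩ := sq a' ha
  obtain ⟨s3, s4⟩ := sq b' hb
  refine ⟨Lune a b ∪ Lune b a, m, ρ, a', b', W', opn, ρ0, ⟨{(e, ⟪m, e⟫)}, ?_, ?_⟩,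
    ⟨?_, ?_, ?_⟩, fun v y hy hB =>
      hB.2.elim (fun h => b4 v y hy ⟨hB.1, h⟩) fun h => b5 v y hy ⟨hB.1, h⟩, ?_⟩
  · intro h hh
    rw [Finset.mem_singleton.1 hh]
    refine ⟨m + ρ • e, ⟨Submodule.mem_top, ?_⟩, ?_⟩
    · rw [add_sub_cancel_left, norm_smul, e1, mul_one, Real.norm_eq_abs, abs_of_pos ρ0]
    · show ⟪m + ρ • e, e⟫ ≠ ⟪m, e⟫
      rw [inner_add_left, real_inner_smul_left, real_inner_self_eq_norm_sq, e1]
      intro h
      linarith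
  · intro y hy hh
    have k : ⟪y, e⟫ ≠ ⟪m, e⟫ := hh _ (Finset.mem_singleton_self _)
    rw [← sub_ne_zero, ← inner_sub_left] at k
    rcases lt_or_gt_of_ne k with k | k
    · exact Or.inr (m3 y hy.2 k)
    · exact Or.inl (m1 y hy.2 k)
  · unfold al
    linarith
  · rw [pj]
    unfold al
    have k1 : (ρ ^ 2 + ‖a' - m‖ ^ 2 - 1) ^ 2 ≤ (101 / 100) ^ 2 :=
      pow_le_pow_left₀ (by linarith) (by linarith) 2
    have k2 : 99 / 100 * (49 / 100) ≤ ‖a' - m‖ ^ 2 * (ρ ^ 2 - 1 / 2) :=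
      mul_le_mul (by linarith) (by linarith) (by norm_num) (by positivity)
    nlinarith
  · rintro μ ⟨k1, k2⟩
    rw [pj, pj] at k2
    unfold al at k1
    have k3 : ‖b' - m‖ ^ 2 = μ ^ 2 * ‖a' - m‖ ^ 2 := by
      rw [k2, norm_smul, mul_pow, Real.norm_eq_abs, sq_abs]
    have k4 : 0 < μ := by
      by_contra hn
      push Not at hn
      have := mul_nonpos_of_nonpos_of_nonneg hn
        (show 0 ≤ ρ ^ 2 + ‖a' - m‖ ^ 2 - 1 by linarith)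
      linarith
    have k5 : (μ - 1) * (μ * ‖a' - m‖ ^ 2 + (1 - ρ ^ 2)) = 0 := by
      linear_combination k1 - k3
    have k6 : 0 < μ * ‖a' - m‖ ^ 2 := mul_pos k4 (by linarith)
    have k7 : μ = 1 := by
      rcases mul_eq_zero.1 k5 with h | h <;> linarith
    rw [k7, one_smul, sub_left_inj] at k2
    exact b1 k2.symm
  · rwa [show d + (d - 1 + 1) = 2 * d by omega] at b3

end Pool.Agent.MP_66cee2_co.S4.H11
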