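import Pool.Agent.MP_66cee2_co.S4.Spec

/-
Pairs near the slice are in good position.
-/

namespace Pool.Agent.MP_66cee2_co.S4.H68

open Set Metric Module Pool.Agent.MP_66cee2_co.X Pool.Agent.MP_66cee2_co.D
open Pool.Agent.MP_66cee2_co.TR Pool.Agent.MP_66cee2_co.Q
open scoped RealInnerProductSpace

theorem eta (ρ t : ℝ) (t0 : 0 < t) (big : 1 / 2 < ρ ^ 2 - t ^ 2) :
    ∃ η : ℝ, 0 < η ∧ ∀ x ∈ Icc t (t + η), ∀ y ∈ Icc t (t + η),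
      0 < 2 * ρ ^ 2 - 1 - 2 * x * t ∧
      (2 * ρ ^ 2 - 1 - 2 * x * t) ^ 2 < 4 * (ρ ^ 2 - x ^ 2) * (ρ ^ 2 - t ^ 2 - 1 / 2) ∧
      (2 * ρ ^ 2 - 1) ^ 2 * (x + y) - 4 * (2 * ρ ^ 2 - 1) * x * y * t
        - 4 * t * ρ ^ 2 * (2 * ρ ^ 2 - 1) + 4 * t ^ 2 * ρ ^ 2 * (x + y) < 0 := by
  have hU : IsOpen {p : ℝ × ℝ | 0 < 2 * ρ ^ 2 - 1 - 2 * p.1 * t ∧
      (2 * ρ ^ 2 - 1 - 2 * p.1 * t) ^ 2 < 4 * (ρ ^ 2 - p.1 ^ 2) * (ρ ^ 2 - t ^ 2 - 1 / 2) ∧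
      (2 * ρ ^ 2 - 1) ^ 2 * (p.1 + p.2) - 4 * (2 * ρ ^ 2 - 1) * p.1 * p.2 * t
        - 4 * t * ρ ^ 2 * (2 * ρ ^ 2 - 1) + 4 * t ^ 2 * ρ ^ 2 * (p.1 + p.2) < 0} :=
    by
      simp only [ofPred_and]
      refine IsOpen.inter ?_ (IsOpen.inter ?_ ?_) <;> exact isOpen_lt (by fun_prop) (by fun_prop)
  obtain ⟨ε, ε0, hε⟩ := Metric.isOpen_iff.1 hU (t, t) (by
    refine ⟨?_, ?_, ?_⟩
    · show 0 < 2 * ρ ^ 2 - 1 - 2 * t * t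
      nlinarith
    · show (2 * ρ ^ 2 - 1 - 2 * t * t) ^ 2 < 4 * (ρ ^ 2 - t ^ 2) * (ρ ^ 2 - t ^ 2 - 1 / 2)
      nlinarith
    · show (2 * ρ ^ 2 - 1) ^ 2 * (t + t) - 4 * (2 * ρ ^ 2 - 1) * t * t * t
        - 4 * t * ρ ^ 2 * (2 * ρ ^ 2 - 1) + 4 * t ^ 2 * ρ ^ 2 * (t + t) < 0
      have h := mul_pos t0 (show 0 < 2 * ρ ^ 2 - 1 - 2 * t ^ 2 by linarith)
      nlinarith)
  refine ⟨ε / 2, by linarith, fun x hx y hy => ?_⟩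
  have : ((x, y) : ℝ × ℝ) ∈ ball ((t, t) : ℝ × ℝ) ε := by
    rw [mem_ball, Prod.dist_eq, max_lt_iff, Real.dist_eq, Real.dist_eq, abs_lt, abs_lt]
    obtain ⟨x1, x2⟩ := hx
    obtain ⟨y1, y2⟩ := hy
    refine ⟨⟨?_, ?_⟩, ?_, ?_⟩ <;> dsimp only <;> linarith
  exact hε this

theorem dec {d : ℕ} {o : E d} {M : Submodule ℝ (E d)} {ρ t : ℝ} {ν : E d} (νM : ν ∈ M)
    (ν1 : ‖ν‖ = 1) (h0 : 0 ≤ ρ ^ 2 - t ^ 2) {a : E d} (ha : a ∈ Sph o M ρ) :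
    (M ⊓ (ℝ ∙ ν)ᗮ : Submodule ℝ (E d)).starProjection (a - (o + t • ν)) =
        a - o - ⟪a - o, ν⟫ • ν ∧
      ‖a - o - ⟪a - o, ν⟫ • ν‖ ^ 2 = ρ ^ 2 - ⟪a - o, ν⟫ ^ 2 ∧
      al (o + t • ν) √(ρ ^ 2 - t ^ 2) a = 2 * ρ ^ 2 - 1 - 2 * ⟪a - o, ν⟫ * t := by
  obtain ⟨aM, a1⟩ := ha
  have νν : ⟪ν, ν⟫ = (1 : ℝ) := by rw [real_inner_self_eq_norm_sq, ν1]; norm_num
  have nrm : ∀ s : ℝ, ‖a - o - s • ν‖ ^ 2 = ρ ^ 2 - 2 * s * ⟪a - o, ν⟫ + s ^ 2 := by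
    intro s
    rw [norm_sub_sq_real, a1, inner_smul_right, norm_smul, ν1, mul_one, Real.norm_eq_abs, sq_abs]
    ring
  refine ⟨?_, ?_, ?_⟩
  · refine Submodule.eq_starProjection_of_mem_of_inner_eq_zero ⟨?_, ?_⟩ fun w hw => ?_
    · exact M.sub_mem aM (M.smul_mem _ νM)
    · refine Submodule.mem_orthogonal_singleton_iff_inner_left.2 ?_
      rw [inner_sub_left, real_inner_smul_left, νν]
      ring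
    · have hw2 := Submodule.mem_orthogonal_singleton_iff_inner_right.1 hw.2
      have e1 : a - (o + t • ν) - (a - o - ⟪a - o, ν⟫ • ν) = (⟪a - o, ν⟫ - t) • ν := by
        rw [sub_smul]
        abel
      rw [e1, real_inner_smul_left, hw2, mul_zero]
  · rw [nrm]
    ring
  · unfold al
    rw [Real.sq_sqrt h0, show a - (o + t • ν) = a - o - t • ν by abel, nrm]
    ring

theorem sNear : SNear := by
  intro d o M ρ ν e t _ s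
  obtain ⟨η, η0, hη⟩ := eta ρ t s.t0 s.big
  have h0 : 0 ≤ ρ ^ 2 - t ^ 2 := by linarith [s.big]
  refine ⟨η, η0, fun a ha b hb hx hy ab => ?_⟩
  obtain ⟨a1, a2, a3⟩ := dec s.νM s.ν1 h0 ha
  obtain ⟨b1, b2, b3⟩ := dec s.νM s.ν1 h0 hb
  obtain ⟨c1, c2, c3⟩ := hη _ hx _ hy
  obtain ⟨c4, -, -⟩ := hη _ hy _ hx
  unfold Pr
  rw [a1, b1, a3, b3, a2, Real.sq_sqrt h0]
  refine ⟨c1, c2, fun μ ⟨m1, m2⟩ => ab ?_⟩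
  generalize hxx : ⟪a - o, ν⟫ = x at *
  generalize hyy : ⟪b - o, ν⟫ = y at *
  have n1 : ρ ^ 2 - y ^ 2 = μ ^ 2 * (ρ ^ 2 - x ^ 2) := by
    rw [← b2, m2, norm_smul, mul_pow, a2, Real.norm_eq_abs, sq_abs]
  have n2 : (ρ ^ 2 - y ^ 2) * (2 * ρ ^ 2 - 1 - 2 * x * t) ^ 2 =
      (ρ ^ 2 - x ^ 2) * (2 * ρ ^ 2 - 1 - 2 * y * t) ^ 2 := by
    rw [n1, m1]
    ring
  have n3 : (x - y) * ((2 * ρ ^ 2 - 1) ^ 2 * (x + y) - 4 * (2 * ρ ^ 2 - 1) * x * y * t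
      - 4 * t * ρ ^ 2 * (2 * ρ ^ 2 - 1) + 4 * t ^ 2 * ρ ^ 2 * (x + y)) = 0 := by
    linear_combination n2
  have xy : x = y := sub_eq_zero.1 ((mul_eq_zero.1 n3).resolve_right c3.ne)
  subst xy
  have m3 : μ = 1 := by
    have : (μ - 1) * (2 * ρ ^ 2 - 1 - 2 * x * t) = 0 := by linear_combination -m1
    exact sub_eq_zero.1 ((mul_eq_zero.1 this).resolve_right c1.ne')
  rw [m3, one_smul] at m2
  have := sub_left_inj.1 (sub_left_inj.1 m2)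
  exact this.symm

end Pool.Agent.MP_66cee2_co.S4.H68
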