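import Pool.Agent.MP_66cee2_co.S4.Spec

/-
Row Near: pairs on the sphere near the slice are in good position for the slice.
-/

namespace Pool.Agent.MP_66cee2_co.S4

open Set Metric Module Pool.Agent.MP_66cee2_co.X Pool.Agent.MP_66cee2_co.D
open Pool.Agent.MP_66cee2_co.TR Pool.Agent.MP_66cee2_co.Q
open scoped RealInnerProductSpace

namespace Nearx

theorem proj {d : ℕ} (M : Submodule ℝ (E d)) (ν w : E d) (hν : ν ∈ M) (h1 : ‖ν‖ = 1) (hw : w ∈ M)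
    (t : ℝ) : (M ⊓ (ℝ ∙ ν)ᗮ).starProjection (w - t • ν) = w - ⟪w, ν⟫ • ν := by
  refine Submodule.eq_starProjection_of_mem_of_inner_eq_zero
    ⟨M.sub_mem hw (M.smul_mem _ hν), Submodule.mem_orthogonal_singleton_iff_inner_right.2 ?_⟩
    fun z hz => ?_
  · rw [inner_sub_right, real_inner_smul_right, real_inner_self_eq_norm_sq, h1, real_inner_comm]
    ring
  · have h2 : ⟪ν, z⟫ = 0 := Submodule.mem_orthogonal_singleton_iff_inner_right.1 hz.2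
    rw [sub_sub_sub_cancel_left, ← sub_smul, real_inner_smul_left, h2, mul_zero]

theorem nsq {d : ℕ} (ν w : E d) (h1 : ‖ν‖ = 1) (s : ℝ) :
    ‖w - s • ν‖ ^ 2 = ‖w‖ ^ 2 - 2 * s * ⟪w, ν⟫ + s ^ 2 := by
  rw [norm_sub_sq_real, real_inner_smul_right, norm_smul, h1, mul_one, Real.norm_eq_abs, sq_abs]
  ring

theorem eta (ρ t : ℝ) (t0 : 0 < t) (big : 1 / 2 < ρ ^ 2 - t ^ 2) :
    ∃ η : ℝ, 0 < η ∧ ∀ x ∈ Icc t (t + η), ∀ y ∈ Icc t (t + η),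
      0 < 2 * ρ ^ 2 - 1 - 2 * x * t ∧
      (2 * ρ ^ 2 - 1 - 2 * x * t) ^ 2 < 4 * (ρ ^ 2 - x ^ 2) * (ρ ^ 2 - t ^ 2 - 1 / 2) ∧
      (2 * ρ ^ 2 - 1) ^ 2 * (x + y) - 4 * (2 * ρ ^ 2 - 1) * x * y * t -
        4 * t * ρ ^ 2 * (2 * ρ ^ 2 - 1) + 4 * t ^ 2 * ρ ^ 2 * (x + y) < 0 := by
  have o1 : IsOpen {p : ℝ × ℝ | 0 < 2 * ρ ^ 2 - 1 - 2 * p.1 * t} :=
    isOpen_lt (by fun_prop) (by fun_prop)
  have o2 : IsOpen {p : ℝ × ℝ | (2 * ρ ^ 2 - 1 - 2 * p.1 * t) ^ 2 <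
      4 * (ρ ^ 2 - p.1 ^ 2) * (ρ ^ 2 - t ^ 2 - 1 / 2)} := isOpen_lt (by fun_prop) (by fun_prop)
  have o3 : IsOpen {p : ℝ × ℝ | (2 * ρ ^ 2 - 1) ^ 2 * (p.1 + p.2) -
      4 * (2 * ρ ^ 2 - 1) * p.1 * p.2 * t - 4 * t * ρ ^ 2 * (2 * ρ ^ 2 - 1) +
      4 * t ^ 2 * ρ ^ 2 * (p.1 + p.2) < 0} := isOpen_lt (by fun_prop) (by fun_prop)
  have k : 0 < ρ ^ 2 - t ^ 2 - 1 / 2 := by linarith
  obtain ⟨ε, e0, e1⟩ := Metric.isOpen_iff.1 (o1.inter (o2.inter o3)) (t, t) ⟨by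
      show 0 < 2 * ρ ^ 2 - 1 - 2 * t * t
      nlinarith, by
      show (2 * ρ ^ 2 - 1 - 2 * t * t) ^ 2 < 4 * (ρ ^ 2 - t ^ 2) * (ρ ^ 2 - t ^ 2 - 1 / 2)
      nlinarith, by
      show (2 * ρ ^ 2 - 1) ^ 2 * (t + t) - 4 * (2 * ρ ^ 2 - 1) * t * t * t -
        4 * t * ρ ^ 2 * (2 * ρ ^ 2 - 1) + 4 * t ^ 2 * ρ ^ 2 * (t + t) < 0
      have := mul_pos t0 k
      nlinarith⟩
  refine ⟨ε / 2, by linarith, fun x hx y hy => ?_⟩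
  have hm : (x, y) ∈ ball (t, t) ε := by
    rw [mem_ball, Prod.dist_eq, max_lt_iff, Real.dist_eq, Real.dist_eq, abs_lt, abs_lt]
    exact ⟨⟨by linarith [hx.1], by linarith [hx.2]⟩, by linarith [hy.1], by linarith [hy.2]⟩
  exact e1 hm

end Nearx

theorem sNear : SNear := by
  intro d o M ρ ν e t _ hS
  obtain ⟨η, η0, hη⟩ := Nearx.eta ρ t hS.t0 hS.big
  refine ⟨η, η0, fun a ha b hb hx hy hab => ?_⟩
  have hr : √(ρ ^ 2 - t ^ 2) ^ 2 = ρ ^ 2 - t ^ 2 := Real.sq_sqrt (by linarith [hS.big])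
  have hal : ∀ z ∈ Sph o M ρ,
      al (o + t • ν) √(ρ ^ 2 - t ^ 2) z = 2 * ρ ^ 2 - 1 - 2 * ⟪z - o, ν⟫ * t := fun z hz => by
    rw [al, hr, ← sub_sub, Nearx.nsq ν _ hS.ν1, hz.2]
    ring
  have hpr : ∀ z ∈ Sph o M ρ,
      (M ⊓ (ℝ ∙ ν)ᗮ).starProjection (z - (o + t • ν)) = z - o - ⟪z - o, ν⟫ • ν := fun z hz => by
    rw [← sub_sub, Nearx.proj M ν _ hS.νM hS.ν1 hz.1]
  have hn : ∀ z ∈ Sph o M ρ, ‖z - o - ⟪z - o, ν⟫ • ν‖ ^ 2 = ρ ^ 2 - ⟪z - o, ν⟫ ^ 2 :=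
    fun z hz => by
      rw [Nearx.nsq ν _ hS.ν1, hz.2]
      ring
  obtain ⟨k1, k2, k3⟩ := hη _ hx _ hy
  refine ⟨by rw [hal a ha]; exact k1, by rw [hal a ha, hpr a ha, hn a ha, hr]; exact k2, ?_⟩
  rintro μ ⟨m1, m2⟩
  rw [hal a ha, hal b hb] at m1
  rw [hpr a ha, hpr b hb] at m2
  have m3 : ρ ^ 2 - ⟪b - o, ν⟫ ^ 2 = μ ^ 2 * (ρ ^ 2 - ⟪a - o, ν⟫ ^ 2) := by
    rw [← hn a ha, ← hn b hb, m2, norm_smul, mul_pow, Real.norm_eq_abs, sq_abs]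
  obtain ⟨x, ex⟩ : ∃ x, x = ⟪a - o, ν⟫ := ⟨_, rfl⟩
  obtain ⟨y, ey⟩ : ∃ y, y = ⟪b - o, ν⟫ := ⟨_, rfl⟩
  rw [← ex, ← ey] at m1 m2 m3 k3
  rw [← ex] at k1
  have m4 : (x - y) * ((2 * ρ ^ 2 - 1) ^ 2 * (x + y) - 4 * (2 * ρ ^ 2 - 1) * x * y * t -
      4 * t * ρ ^ 2 * (2 * ρ ^ 2 - 1) + 4 * t ^ 2 * ρ ^ 2 * (x + y)) = 0 := by
    have m5 : (ρ ^ 2 - y ^ 2) * (2 * ρ ^ 2 - 1 - 2 * x * t) ^ 2 =
        (ρ ^ 2 - x ^ 2) * (2 * ρ ^ 2 - 1 - 2 * y * t) ^ 2 := by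
      rw [m3, m1]
      ring
    linear_combination m5
  have m6 : x = y := sub_eq_zero.1 ((mul_eq_zero.1 m4).resolve_right k3.ne)
  subst m6
  have m7 : μ = 1 := by
    have : (μ - 1) * (2 * ρ ^ 2 - 1 - 2 * x * t) = 0 := by linear_combination -m1
    exact sub_eq_zero.1 ((mul_eq_zero.1 this).resolve_right k1.ne')
  rw [m7, one_smul, sub_left_inj, sub_left_inj] at m2
  exact hab m2.symm

end Pool.Agent.MP_66cee2_co.S4
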