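import Pool.Agent.MP_66cee2_co.F.Main
import Pool.Agent.MP_66cee2_co.TR.Alg
import Pool.Agent.MP_66cee2_co.Q.Br
import Pool.Agent.MP_66cee2_co.Q.Gen
import Pool.Agent.MP_66cee2_co.Q.Piece
import Pool.Agent.MP_66cee2_co.Q.Leb
import Pool.Agent.MP_66cee2_co.Q.Rel
import Pool.Agent.MP_66cee2_co.S3.FoldG
import Pool.Agent.MP_66cee2_co.S3.Mid
import Pool.Agent.MP_66cee2_co.S4.FoldC
import Pool.Agent.MP_66cee2_co.S4.Dens
import Pool.Agent.MP_66cee2_co.S4.Slice2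
import Pool.Agent.MP_66cee2_co.S4.Near
import Pool.Agent.MP_66cee2_co.S4.Chart
import Pool.Agent.MP_66cee2_co.S4.Start
import Pool.Agent.MP_66cee2_co.S4.Dim

/-
The topological theorem with thick steps: assembly.
-/

namespace Pool.Agent.MP_66cee2_co.S4

open Pool.Agent.MP_66cee2_co.X Pool.Agent.MP_66cee2_co.Q

theorem sTK : STK :=
  sTK_of TR.sAlg sDens sSlice2 sNear sChart (sFoldC (sLeb sBr sGen sPiece) sRel)
    (sStart (S3.sFoldG (sLeb sBr sGen sPiece) sRel) S3.sMid) sDim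

theorem allIsoK (d n : ℕ) (hd : 3 ≤ d) (hn : 2 * n + 6 ≤ d ^ 2 + 3 * d) : XT.AllIso d n :=
  F.allIso_noFam d n hd fun O => sTK d n O (by omega) hn

end Pool.Agent.MP_66cee2_co.S4
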