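import Pool.Agent.MP_66cee2_co.S4.Spec

/-
The next sphere.
-/

namespace Pool.Agent.MP_66cee2_co.S4

open Set Metric Module Filter Topology Pool.Agent.MP_66cee2_co.X Pool.Agent.MP_66cee2_co.D
open Pool.Agent.MP_66cee2_co.TR Pool.Agent.MP_66cee2_co.Q
open scoped RealInnerProductSpace

namespace Slice2x

variable {d : ℕ}

theorem inner_P (M : Submodule ℝ (E d)) {w : E d} (hw : w ∈ M) (u : E d) :
    ⟪w, M.starProjection u⟫ = ⟪w, u⟫ := by
  have h := M.starProjection_inner_eq_zero u w hw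
  rw [inner_sub_left, real_inner_comm w, real_inner_comm w] at h
  linarith

theorem dist_eq {o a y : E d} {M : Submodule ℝ (E d)} {ρ : ℝ} (hy : y ∈ Sph o M ρ) :
    ‖y - a‖ ^ 2 - 1 = al o ρ a - 2 * ⟪y - o, M.starProjection (a - o)⟫ := by
  have e : y - a = (y - o) - (a - o) := by abel
  rw [inner_P M hy.1, e, norm_sub_sq_real, hy.2, al]
  ring

theorem lune_of {a b y : E d} {l : ℝ} (l0 : 0 < l) (l1 : l < 1)
    (h : (1 - l) * (‖y - a‖ ^ 2 - 1) + l * (‖y - b‖ ^ 2 - 1) = 0)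
    (hne : ‖y - b‖ ^ 2 - 1 - (‖y - a‖ ^ 2 - 1) ≠ 0) : y ∈ Lune a b ∪ Lune b a := by
  have na := norm_nonneg (y - a)
  have nb := norm_nonneg (y - b)
  rcases lt_or_gt_of_ne hne with c | c
  · have h1 : ‖y - b‖ ^ 2 < 1 := by nlinarith
    have h2 : 1 < ‖y - a‖ ^ 2 := by nlinarith
    exact Or.inl ⟨by nlinarith, by nlinarith⟩
  · have h1 : ‖y - a‖ ^ 2 < 1 := by nlinarith
    have h2 : 1 < ‖y - b‖ ^ 2 := by nlinarith
    exact Or.inr ⟨by nlinarith, by nlinarith⟩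

theorem exists_e {M : Submodule ℝ (E d)} (hM : 2 ≤ finrank ℝ M) (ν u : E d) (γ : ℝ) (hu : u ∈ M)
    (huν : ⟪u, ν⟫ = 0) (h : ¬ (γ = 0 ∧ u = 0)) :
    ∃ e ∈ M, ‖e‖ = 1 ∧ ⟪e, ν⟫ = 0 ∧ ∀ w : E d, 0 < ⟪w, e⟫ → γ - 2 * ⟪w, u⟫ ≠ 0 := by
  by_cases h0 : u = 0
  · have hγ : γ ≠ 0 := fun c => h ⟨c, h0⟩
    let f : M →ₗ[ℝ] ℝ := (innerₛₗ ℝ ν).comp M.subtype
    obtain ⟨x, hx, x0⟩ := (Submodule.ne_bot_iff _).1
      (LinearMap.ker_ne_bot_of_finrank_lt (f := f) (by rw [finrank_self]; omega))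
    have x1 : (x : E d) ≠ 0 := fun c => x0 (Subtype.ext c)
    have hx' : ⟪ν, (x : E d)⟫ = 0 := hx
    refine ⟨‖(x : E d)‖⁻¹ • (x : E d), M.smul_mem _ x.2, norm_smul_inv_norm x1, ?_,
      fun w _ => ?_⟩
    · rw [real_inner_smul_left, real_inner_comm, hx', mul_zero]
    · rw [h0, inner_zero_right, mul_zero, sub_zero]
      exact hγ
  · have n0 : 0 < ‖u‖⁻¹ := inv_pos.2 (norm_pos_iff.2 h0)
    rcases le_or_gt 0 γ with c | c
    · refine ⟨-(‖u‖⁻¹ • u), M.neg_mem (M.smul_mem _ hu), ?_, ?_, fun w hw => ?_⟩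
      · rw [norm_neg]
        exact norm_smul_inv_norm h0
      · rw [inner_neg_left, real_inner_smul_left, huν, mul_zero, neg_zero]
      · rw [inner_neg_right, real_inner_smul_right] at hw
        have : ⟪w, u⟫ < 0 := by
          by_contra k
          nlinarith [mul_nonneg n0.le (not_lt.1 k)]
        linarith
    · refine ⟨‖u‖⁻¹ • u, M.smul_mem _ hu, norm_smul_inv_norm h0, ?_, fun w hw => ?_⟩
      · rw [real_inner_smul_left, huν, mul_zero]
      · rw [real_inner_smul_right] at hw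
        have : 0 < ⟪w, u⟫ := (mul_pos_iff_of_pos_left n0).1 hw
        linarith

theorem ind {α β : ℝ} {v w : E d} (h0 : 0 < α) (h : ∀ μ : ℝ, ¬ (β = μ * α ∧ w = μ • v))
    {p q : ℝ} (h1 : p * α + q * β = 0) (h2 : p • v + q • w = 0) : p = 0 ∧ q = 0 := by
  have hq : q = 0 := by
    by_contra c
    refine h (-p / q) ⟨by field_simp; linarith, ?_⟩
    have e : q • w = -(p • v) := eq_neg_of_add_eq_zero_right h2
    rw [← inv_smul_smul₀ c w, e, ← neg_smul, smul_smul, div_eq_inv_mul]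
  rw [hq, zero_mul, add_zero] at h1
  exact ⟨(mul_eq_zero.1 h1).resolve_right h0.ne', hq⟩

theorem exists_l {α β r : ℝ} {v w : E d} (h0 : 0 < α) (h1 : α ^ 2 < 4 * ‖v‖ ^ 2 * r)
    (h : ∀ μ : ℝ, ¬ (β = μ * α ∧ w = μ • v)) (H : Finset (E d × ℝ)) (f : E d × ℝ → ℝ)
    (g : E d × ℝ → E d) :
    ∃ l : ℝ, 0 < l ∧ l < 1 ∧ 0 < (1 - l) * α + l * β ∧
      ((1 - l) * α + l * β) ^ 2 < 4 * ‖(1 - l) • v + l • w‖ ^ 2 * r ∧
      ∀ x ∈ H, ∀ k : ℝ, k ≠ 0 → f x = k * ((1 - l) * α + l * β) →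
        g x ≠ k • ((1 - l) • v + l • w) := by
  have c1 : Continuous fun l : ℝ => (1 - l) * α + l * β := by fun_prop
  have c2 : Continuous fun l : ℝ => ((1 - l) * α + l * β) ^ 2 := by fun_prop
  have c3 : Continuous fun l : ℝ => 4 * ‖(1 - l) • v + l • w‖ ^ 2 * r := by fun_prop
  have ho : IsOpen ({l : ℝ | l < 1} ∩ ({l : ℝ | 0 < (1 - l) * α + l * β} ∩
      {l : ℝ | ((1 - l) * α + l * β) ^ 2 < 4 * ‖(1 - l) • v + l • w‖ ^ 2 * r})) :=
    isOpen_Iio.inter ((isOpen_lt continuous_const c1).inter (isOpen_lt c2 c3))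
  obtain ⟨ε, ε0, hε⟩ := Metric.isOpen_iff.1 ho 0 ⟨by simp, by simpa using h0, by simpa using h1⟩
  have hf : (⋃ x ∈ (H : Set (E d × ℝ)), {l : ℝ | ∃ k : ℝ, k ≠ 0 ∧
      f x = k * ((1 - l) * α + l * β) ∧ g x = k • ((1 - l) • v + l • w)}).Finite := by
    refine H.finite_toSet.biUnion fun x _ => Set.Subsingleton.finite ?_
    rintro l₁ ⟨k₁, a1, a2, a3⟩ l₂ ⟨k₂, -, b2, b3⟩
    obtain ⟨e1, e2⟩ := ind h0 h (p := k₁ * (1 - l₁) - k₂ * (1 - l₂)) (q := k₁ * l₁ - k₂ * l₂)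
      (by linarith [a2.symm.trans b2]) (by
        have := sub_eq_zero.2 (a3.symm.trans b3)
        rw [← this]
        module)
    have e3 : k₁ = k₂ := by linarith
    rw [← e3, ← mul_sub] at e2
    exact sub_eq_zero.1 ((mul_eq_zero.1 e2).resolve_left a1)
  obtain ⟨l, hl, hl'⟩ := (Set.Ioo_infinite ε0).exists_notMem_finite hf
  obtain ⟨a1, a2, a3⟩ := hε (a := l) (by
    rw [mem_ball_zero_iff, Real.norm_of_nonneg hl.1.le]; exact hl.2)
  refine ⟨l, hl.1, a1, a2, a3, fun x hx k k0 e1 e2 => hl' ?_⟩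
  exact mem_biUnion hx ⟨k, k0, e1, e2⟩

theorem mem_sl {M : Submodule ℝ (E d)} {ν w : E d} : w ∈ M ⊓ (ℝ ∙ ν)ᗮ ↔ w ∈ M ∧ ⟪ν, w⟫ = 0 := by
  rw [Submodule.mem_inf, Submodule.mem_orthogonal_singleton_iff_inner_right]

end Slice2x

open Slice2x

theorem sSlice2 : SSlice := by
  classical
  intro d B o M ρ a b hM ρ0 hG hP
  obtain ⟨H, H1, H2⟩ := hG
  obtain ⟨p1, p2, p3⟩ := hP
  set va := M.starProjection (a - o) with hva
  set vb := M.starProjection (b - o) with hvb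
  have vaM : va ∈ M := M.starProjection_apply_mem _
  have vbM : vb ∈ M := M.starProjection_apply_mem _
  obtain ⟨l, l0, l1, a1, a2, a3⟩ := exists_l p1 p2 p3 H (fun h => 2 * (h.2 - ⟪o, h.1⟫))
    fun h => M.starProjection h.1
  set α := (1 - l) * al o ρ a + l * al o ρ b with hα
  set v := (1 - l) • va + l • vb with hv
  have vM : v ∈ M := M.add_mem (M.smul_mem _ vaM) (M.smul_mem _ vbM)
  have v0 : v ≠ 0 := fun c => by
    rw [c, norm_zero] at a2
    nlinarith [sq_nonneg α]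
  have N0 : 0 < ‖v‖ := norm_pos_iff.2 v0
  set ν := ‖v‖⁻¹ • v with hν
  set t := α / (2 * ‖v‖) with ht
  have νM : ν ∈ M := M.smul_mem _ vM
  have ν1 : ‖ν‖ = 1 := norm_smul_inv_norm v0
  have νν : ⟪ν, ν⟫ = 1 := by rw [real_inner_self_eq_norm_sq, ν1, one_pow]
  have vν : v = ‖v‖ • ν := by rw [hν, smul_inv_smul₀ N0.ne']
  have t0 : 0 < t := by positivity
  have tα : α = 2 * ‖v‖ * t := by rw [ht]; field_simp
  have big : 1 / 2 < ρ ^ 2 - t ^ 2 := by
    rw [tα] at a2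
    nlinarith [mul_pos N0 N0]
  set r := √(ρ ^ 2 - t ^ 2) with hr
  have r0 : 0 < r := Real.sqrt_pos.2 (by linarith)
  have r2 : r ^ 2 = ρ ^ 2 - t ^ 2 := Real.sq_sqrt (by linarith)
  set s := ⟪ν, vb - va⟫ with hs
  set u := vb - va - s • ν with hu
  set γ := al o ρ b - al o ρ a - 2 * t * s with hγ
  have uM : u ∈ M := M.sub_mem (M.sub_mem vbM vaM) (M.smul_mem _ νM)
  have uν : ⟪u, ν⟫ = 0 := by
    rw [hu, inner_sub_left, real_inner_smul_left, νν, real_inner_comm, ← hs]; ring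
  have nd : ¬ (γ = 0 ∧ u = 0) := by
    rintro ⟨c1, c2⟩
    have e1 : vb - va = (s * ‖v‖⁻¹) • ((1 - l) • va + l • vb) := by
      rw [← hv, ← smul_smul, ← hν]
      exact sub_eq_zero.1 c2
    have e2 : al o ρ b - al o ρ a = s * ‖v‖⁻¹ * α := by
      rw [tα]
      field_simp
      linarith
    generalize s * ‖v‖⁻¹ = k at e1 e2
    obtain ⟨f1, f2⟩ := ind p1 p3 (p := -1 - k * (1 - l)) (q := 1 - k * l)
      (by rw [hα] at e2; linarith) (by
        rw [← sub_eq_zero.2 e1]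
        module)
    have k0 : k = 0 := by linarith
    rw [k0] at f2
    norm_num at f2
  obtain ⟨e, eM, e1, eν, he⟩ := exists_e hM ν u γ uM uν nd
  have dec : ∀ y : E d, y - o = t • ν + (y - (o + t • ν)) := fun y => by abel
  have S1 : ∀ y ∈ Sph (o + t • ν) (M ⊓ (ℝ ∙ ν)ᗮ) r, y ∈ Sph o M ρ := by
    intro y hy
    obtain ⟨m1, m2⟩ := mem_sl.1 hy.1
    refine ⟨dec y ▸ M.add_mem (M.smul_mem _ νM) m1, ?_⟩
    refine (sq_eq_sq₀ (norm_nonneg _) ρ0.le).1 ?_
    rw [dec y, norm_add_sq_real, real_inner_smul_left, m2, hy.2, norm_smul, ν1, r2,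
      Real.norm_of_nonneg t0.le]
    ring
  have S2 : ∀ y ∈ Sph (o + t • ν) (M ⊓ (ℝ ∙ ν)ᗮ) r,
      al o ρ b - al o ρ a - 2 * ⟪y - o, vb - va⟫ ≠ 0 → y ∈ Lune a b ∪ Lune b a := by
    intro y hy hne
    obtain ⟨-, m2⟩ := mem_sl.1 hy.1
    have k1 := dist_eq (a := a) (S1 y hy)
    have k2 := dist_eq (a := b) (S1 y hy)
    rw [← hva] at k1
    rw [← hvb] at k2
    have k3 : ⟪y - o, v⟫ = ‖v‖ * t := by
      rw [vν, real_inner_smul_right, dec y, inner_add_left, real_inner_smul_left, νν,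
        real_inner_comm, m2, norm_smul, ν1, norm_norm]
      ring
    have k4 : ⟪y - o, v⟫ = (1 - l) * ⟪y - o, va⟫ + l * ⟪y - o, vb⟫ := by
      rw [hv, inner_add_right, real_inner_smul_right, real_inner_smul_right]
    rw [inner_sub_right] at hne
    refine lune_of l0 l1 ?_ ?_
    · rw [k1, k2]
      linarith
    · rw [k1, k2]
      intro c
      exact hne (by linarith)
  have S3 : ∀ y ∈ Sph (o + t • ν) (M ⊓ (ℝ ∙ ν)ᗮ) r, 0 < ⟪y - o, e⟫ →
      al o ρ b - al o ρ a - 2 * ⟪y - o, vb - va⟫ ≠ 0 := by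
    intro y hy h0
    obtain ⟨-, m2⟩ := mem_sl.1 hy.1
    rw [dec y, inner_add_left, real_inner_smul_left, real_inner_comm e, eν, mul_zero,
      zero_add] at h0
    have k1 := he _ h0
    rw [hu, inner_sub_right, real_inner_smul_right, real_inner_comm ν, m2] at k1
    rw [dec y, inner_add_left, real_inner_smul_left, ← hs]
    intro c
    exact k1 (by rw [hγ]; linarith)
  have S4 : ∀ w ∈ M, ⟪ν, w⟫ = 0 → ‖w‖ = r → o + t • ν + w ∈ Sph (o + t • ν) (M ⊓ (ℝ ∙ ν)ᗮ) r := by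
    intro w w1 w2 w3
    exact ⟨by rw [add_sub_cancel_left]; exact mem_sl.2 ⟨w1, w2⟩,
      by rw [add_sub_cancel_left]; exact w3⟩
  have νe : ⟪ν, e⟫ = 0 := by rw [real_inner_comm, eν]
  have y0 := S4 (r • e) (M.smul_mem _ eM) (by rw [real_inner_smul_right, νe, mul_zero])
    (by rw [norm_smul, e1, mul_one, Real.norm_of_nonneg r0.le])
  refine ⟨ν, e, t, ⟨νM, ν1, eM, e1, eν, t0, big⟩, fun _ => ?_, fun y hy h0 => S2 y hy (S3 y hy h0)⟩
  refine ⟨insert (vb - va, (al o ρ b - al o ρ a) / 2 + ⟪o, vb - va⟫) H, fun h hh => ?_,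
    fun y hy hh => ⟨H2 y (S1 y hy) fun h k => hh h (Finset.mem_insert_of_mem k), S2 y hy ?_⟩⟩
  · rcases Finset.mem_insert.1 hh with rfl | hh
    · refine ⟨_, y0, fun c => S3 _ y0 ?_ ?_⟩
      · rw [add_assoc, add_sub_cancel_left, inner_add_left, real_inner_smul_left ν, νe,
          real_inner_smul_left e, real_inner_self_eq_norm_sq, e1]
        linarith
      · rw [inner_sub_left]
        simp only [] at c
        linarith
    · by_contra hc
      have hc' : ∀ y ∈ Sph (o + t • ν) (M ⊓ (ℝ ∙ ν)ᗮ) r, ⟪y, h.1⟫ = h.2 := fun y hy =>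
        by_contra fun k => hc ⟨y, hy, k⟩
      have T : ∀ w ∈ M, ⟪ν, w⟫ = 0 → ‖w‖ = r → ⟪w, h.1⟫ = 0 ∧ ⟪o + t • ν, h.1⟫ = h.2 := by
        intro w w1 w2 w3
        have k1 := hc' _ (S4 w w1 w2 w3)
        have k2 := hc' _ (S4 (-w) (M.neg_mem w1) (by rw [inner_neg_right, w2, neg_zero])
          (by rw [norm_neg, w3]))
        rw [inner_add_left] at k1 k2
        rw [inner_neg_left] at k2
        exact ⟨by linarith, by linarith⟩
      have T1 := (T (r • e) (M.smul_mem _ eM) (by rw [real_inner_smul_right, νe, mul_zero])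
        (by rw [norm_smul, e1, mul_one, Real.norm_of_nonneg r0.le])).2
      rw [inner_add_left, real_inner_smul_left] at T1
      set σ := ⟪ν, h.1⟫ with hσ
      have T2 : M.starProjection h.1 = σ • ν := by
        by_contra c
        have x0 : M.starProjection h.1 - σ • ν ≠ 0 := sub_ne_zero.2 c
        set x := M.starProjection h.1 - σ • ν with hx
        have xM : x ∈ M := M.sub_mem (M.starProjection_apply_mem _) (M.smul_mem _ νM)
        have xν : ⟪ν, x⟫ = 0 := by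
          rw [hx, inner_sub_right, real_inner_smul_right, νν, inner_P M νM, ← hσ]; ring
        have n0 : 0 < ‖x‖ := norm_pos_iff.2 x0
        have k1 := (T ((r * ‖x‖⁻¹) • x) (M.smul_mem _ xM)
          (by rw [real_inner_smul_right, xν, mul_zero])
          (by rw [norm_smul, Real.norm_of_nonneg (by positivity)]; field_simp)).1
        rw [real_inner_smul_left, ← inner_P M xM] at k1
        have k2 : ⟪x, M.starProjection h.1⟫ = 0 :=
          (mul_eq_zero.1 k1).resolve_left (by positivity)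
        have k3 : ⟪x, x⟫ = 0 := by
          nth_rewrite 2 [hx]
          rw [inner_sub_right, k2, real_inner_smul_right, real_inner_comm, xν]
          ring
        exact x0 (inner_self_eq_zero.1 k3)
      by_cases σ0 : σ = 0
      · obtain ⟨y, y1, y2⟩ := H1 h hh
        have k1 := inner_P M y1.1 h.1
        rw [T2, σ0, zero_smul, inner_zero_right, inner_sub_left] at k1
        rw [σ0] at T1
        exact y2 (by linarith)
      · refine a3 h hh (σ * ‖v‖⁻¹) (mul_ne_zero σ0 (inv_ne_zero N0.ne')) ?_ ?_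
        · rw [tα]
          field_simp
          linarith
        · rw [T2, ← smul_smul]
  · have k := hh _ (Finset.mem_insert_self _ _)
    rw [inner_sub_left]
    intro c
    exact k (by simp only []; linarith)

end Pool.Agent.MP_66cee2_co.S4
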