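import Pool.Agent.MP_66cee2_co.S3.Spec

/-
The topological theorem with thick steps at every level.
-/

namespace Pool.Agent.MP_66cee2_co.S4

open Set Metric Module Pool.Agent.MP_66cee2_co.X Pool.Agent.MP_66cee2_co.D
open Pool.Agent.MP_66cee2_co.TR Pool.Agent.MP_66cee2_co.Q
open scoped RealInnerProductSpace

/-- the points of the sphere off finitely many hyperplanes lie in `B`. -/
def Good {d : ℕ} (B : Set (E d)) (o : E d) (M : Submodule ℝ (E d)) (ρ : ℝ) : Prop :=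
  ∃ H : Finset (E d × ℝ), (∀ h ∈ H, ∃ y ∈ Sph o M ρ, ⟪y, h.1⟫ ≠ h.2) ∧
    ∀ y ∈ Sph o M ρ, (∀ h ∈ H, ⟪y, h.1⟫ ≠ h.2) → y ∈ B

/-- the constant term of `‖y - a‖ ^ 2 - 1` on the sphere. -/
noncomputable def al {d : ℕ} (o : E d) (ρ : ℝ) (a : E d) : ℝ := ρ ^ 2 + ‖a - o‖ ^ 2 - 1

/-- a pair of points in good position. -/
def Pr {d : ℕ} (o : E d) (M : Submodule ℝ (E d)) (ρ : ℝ) (a b : E d) : Prop :=
  0 < al o ρ a ∧ al o ρ a ^ 2 < 4 * ‖M.starProjection (a - o)‖ ^ 2 * (ρ ^ 2 - 1 / 2) ∧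
    ∀ μ : ℝ, ¬ (al o ρ b = μ * al o ρ a ∧
      M.starProjection (b - o) = μ • M.starProjection (a - o))

/-- the data of a slice. -/
structure Sl {d : ℕ} (M : Submodule ℝ (E d)) (ρ : ℝ) (ν e : E d) (t : ℝ) : Prop where
  νM : ν ∈ M
  ν1 : ‖ν‖ = 1
  eM : e ∈ M
  e1 : ‖e‖ = 1
  eν : ⟪e, ν⟫ = 0
  t0 : 0 < t
  big : 1 / 2 < ρ ^ 2 - t ^ 2

/-- row Dens: good points are dense in the sphere. -/
def SDens : Prop :=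
  ∀ (d : ℕ) (B U : Set (E d)) (o : E d) (M : Submodule ℝ (E d)) (ρ : ℝ), 2 ≤ finrank ℝ M → 0 < ρ →
    Good B o M ρ → IsOpen U → ∀ y ∈ Sph o M ρ, y ∈ U → ∃ z ∈ Sph o M ρ, z ∈ U ∧ z ∈ B

/-- row Slice: the next sphere. -/
def SSlice : Prop :=
  ∀ (d : ℕ) (B : Set (E d)) (o : E d) (M : Submodule ℝ (E d)) (ρ : ℝ) (a b : E d),
    2 ≤ finrank ℝ M → 0 < ρ → Good B o M ρ → Pr o M ρ a b →
    ∃ (ν e : E d) (t : ℝ), Sl M ρ ν e t ∧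
      (3 ≤ finrank ℝ M → Good (B ∩ (Lune a b ∪ Lune b a)) (o + t • ν) (M ⊓ (ℝ ∙ ν)ᗮ)
        √(ρ ^ 2 - t ^ 2)) ∧
      ∀ y ∈ Sph (o + t • ν) (M ⊓ (ℝ ∙ ν)ᗮ) √(ρ ^ 2 - t ^ 2), 0 < ⟪y - o, e⟫ →
        y ∈ Lune a b ∪ Lune b a

/-- row Near: pairs on the sphere near the slice are in good position for the slice. -/
def SNear : Prop :=
  ∀ (d : ℕ) (o : E d) (M : Submodule ℝ (E d)) (ρ : ℝ) (ν e : E d) (t : ℝ), 0 < ρ →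
    Sl M ρ ν e t → ∃ η : ℝ, 0 < η ∧ ∀ a ∈ Sph o M ρ, ∀ b ∈ Sph o M ρ,
      ⟪a - o, ν⟫ ∈ Icc t (t + η) → ⟪b - o, ν⟫ ∈ Icc t (t + η) → a ≠ b →
      Pr (o + t • ν) (M ⊓ (ℝ ∙ ν)ᗮ) √(ρ ^ 2 - t ^ 2) a b

/-- row Chart: a cap of the slice, thick along the sphere. -/
def SChart : Prop :=
  ∀ (d : ℕ) (o : E d) (M : Submodule ℝ (E d)) (ρ : ℝ) (ν e : E d) (t η : ℝ) (U : Set (E d)),
    0 < ρ → Sl M ρ ν e t → 0 < η → IsOpen U →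
    (∀ y ∈ Sph (o + t • ν) (M ⊓ (ℝ ∙ ν)ᗮ) √(ρ ^ 2 - t ^ 2), 0 < ⟪y - o, e⟫ → y ∈ U) →
    ∃ (F : Submodule ℝ (E d)) (φ : F × ℝ → E d), finrank ℝ M ≤ finrank ℝ F + 2 ∧ Continuous φ ∧
      (∀ p ∈ Cyl F, φ p ∈ Sph o M ρ ∧ φ p ∈ U ∧ ⟪φ p - o, ν⟫ ∈ Icc t (t + η)) ∧
      (∀ p ∈ Cyl F, ∀ q ∈ Cyl F, ‖p.1‖ = 1 → ‖q.1‖ = 1 → ‖φ p - φ q‖ ≤ 1 → 0 < ⟪p.1, q.1⟫) ∧
      ∀ p ∈ Cyl F, ∀ q ∈ Cyl F, p.2 = 0 → q.2 = 1 → φ p ≠ φ q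

/-- row FoldC: the fold for a chart in the closure. -/
def SFoldC : Prop :=
  ∀ (d n c s : ℕ) (O : (Ix n → ℝ) → Set (E d)) (B : Set (E d)) (W : Submodule ℝ (Ix n → ℝ))
    (F : Submodule ℝ (E d)) (φ : F × ℝ → E d) (T : Set (E d)), Fam O → IsOpen B →
    Lab O B W → Su c W → s ≤ finrank ℝ F → Continuous φ → (∀ p ∈ Cyl F, φ p ∈ T) →
    T ⊆ closure B →
    (∀ p ∈ Cyl F, ∀ q ∈ Cyl F, ‖p.1‖ = 1 → ‖q.1‖ = 1 → ‖φ p - φ q‖ ≤ 1 → 0 < ⟪p.1, q.1⟫) →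
    (∀ p ∈ Cyl F, ∀ q ∈ Cyl F, p.2 = 0 → q.2 = 1 → φ p ≠ φ q) →
    ∃ (W' : Submodule ℝ (Ix n → ℝ)), ∃ a ∈ T, ∃ b ∈ T, a ≠ b ∧
      Su (c + (s + 1)) W' ∧ Lab O (B ∩ (Lune a b ∪ Lune b a)) W'

/-- row Start: the first two steps. -/
def SStart : Prop :=
  ∀ (d n : ℕ) (O : (Ix n → ℝ) → Set (E d)), 2 ≤ d → Fam O →
    ∃ (B : Set (E d)) (o : E d) (ρ : ℝ) (a b : E d) (W : Submodule ℝ (Ix n → ℝ)), IsOpen B ∧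
      0 < ρ ∧ Good B o ⊤ ρ ∧ Pr o ⊤ ρ a b ∧ Lab O (B ∩ (Lune a b ∪ Lune b a)) W ∧ Su (2 * d) W

/-- row Dim: the rank of the slice, and a point of the slice. -/
def SDim : Prop :=
  ∀ (d : ℕ) (o : E d) (M : Submodule ℝ (E d)) (ρ : ℝ) (ν e : E d) (t : ℝ), 0 < ρ →
    Sl M ρ ν e t → finrank ℝ (M ⊓ (ℝ ∙ ν)ᗮ : Submodule ℝ (E d)) + 1 = finrank ℝ M ∧
      ∃ y ∈ Sph (o + t • ν) (M ⊓ (ℝ ∙ ν)ᗮ) √(ρ ^ 2 - t ^ 2), 0 < ⟪y - o, e⟫ ∧ y ∈ Sph o M ρ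

/-- the topological theorem with thick steps. -/
def STK : Prop :=
  ∀ (d n : ℕ) (O : (Ix n → ℝ) → Set (E d)), 2 ≤ d → 2 * n + 6 ≤ d ^ 2 + 3 * d → ¬ Fam O

theorem sTK_of (h0 : SAlg) (h1 : SDens) (h2 : SSlice) (h3 : SNear) (h4 : SChart) (h5 : SFoldC)
    (h6 : SStart) (h7 : SDim) : STK := by
  intro d n O hd hn hO
  have opn : ∀ a b : E d, IsOpen (Lune a b ∪ Lune b a) := fun a b =>
    (isOpen_lune a b).union (isOpen_lune b a)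
  have main : ∀ (m c : ℕ) (B : Set (E d)) (o : E d) (M : Submodule ℝ (E d)) (ρ : ℝ) (a b : E d)
      (W : Submodule ℝ (Ix n → ℝ)), finrank ℝ M = m + 2 → IsOpen B → 0 < ρ → Good B o M ρ →
      Pr o M ρ a b → Lab O (B ∩ (Lune a b ∪ Lune b a)) W → Su c W →
      2 * c + m ^ 2 + 3 * m ≤ 2 * n + 2 := by
    intro m
    induction m with
    | zero =>
      intro c B o M ρ a b W hM hB ρ0 hG hP hL hS
      obtain ⟨ν, e, t, s1, -, s3⟩ := h2 d B o M ρ a b (by omega) ρ0 hG hP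
      obtain ⟨-, y, y1, y2, y3⟩ := h7 d o M ρ ν e t ρ0 s1
      obtain ⟨z, -, z2, z3⟩ := h1 d B _ o M ρ (by omega) ρ0 hG (opn a b) y y3 (s3 y y1 y2)
      obtain ⟨x, hxB, hx⟩ := hO.dense.inter_open_nonempty _ (hB.inter (opn a b)) ⟨z, z3, z2⟩
      obtain ⟨w, hw⟩ := mem_iUnion.1 hx
      have := h0.2 n c W w hS (hL w x hw hxB) (hO.pos w ⟨x, hw⟩)
      omega
    | succ m ih =>
      intro c B o M ρ a b W hM hB ρ0 hG hP hL hS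
      obtain ⟨ν, e, t, s1, s2, s3⟩ := h2 d B o M ρ a b (by omega) ρ0 hG hP
      obtain ⟨η, η0, n1⟩ := h3 d o M ρ ν e t ρ0 s1
      obtain ⟨F, φ, f1, f2, f3, f4, f5⟩ := h4 d o M ρ ν e t η _ ρ0 s1 η0 (opn a b) s3
      obtain ⟨W', a', ha, b', hb, b1, b2, b3⟩ := h5 d n c (m + 1) O _ W F φ
        {y | y ∈ Sph o M ρ ∧ y ∈ Lune a b ∪ Lune b a ∧ ⟪y - o, ν⟫ ∈ Icc t (t + η)} hO
        (hB.inter (opn a b)) hL hS (by omega) f2 f3 (fun y hy => by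
          refine _root_.mem_closure_iff.2 fun U hU hyU => ?_
          obtain ⟨z, -, z2, z3⟩ := h1 d B _ o M ρ (by omega) ρ0 hG (hU.inter (opn a b)) y hy.1
            ⟨hyU, hy.2.1⟩
          exact ⟨z, z2.1, z3, z2.2⟩) f4 f5
      have := ih _ _ _ _ _ a' b' W' (by
          have := (h7 d o M ρ ν e t ρ0 s1).1
          omega) (hB.inter (opn a b)) (Real.sqrt_pos.2 (by linarith [s1.big])) (s2 (by omega))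
        (n1 a' ha.1 b' hb.1 ha.2.2 hb.2.2 b1) b3 b2
      nlinarith
  obtain ⟨B, o, ρ, a, b, W, b1, b2, b3, b4, b5, b6⟩ := h6 d n O hd hO
  obtain ⟨m, rfl⟩ : ∃ m, d = m + 2 := ⟨d - 2, by omega⟩
  have := main m _ B o ⊤ ρ a b W (by simp) b1 b2 b3 b4 b5 b6
  nlinarith

end Pool.Agent.MP_66cee2_co.S4
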